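import Pool.Agent.Lib.H65Z.M1

/-!
# H65Z, chunk M2 (M): the growth classes

PROOF. Bounds with nonnegative constants (replace `C` by `|C|`), `(1 + ‖z‖)^M ≤ (1 + ‖z‖)^(M + M')`; `exp` is decreasing in `N` for `Im z ≥ 0`. Products: `exp(-a) exp(-b) = exp(-(a+b))`.
`EG.inv_jo`: `‖c z + d‖ ≥ min(1, δ)` for `Im z ≥ δ` (`c = 0`: `|d| = 1`; `c ≠ 0`: `|c| Im z ≥ δ`). `EG.sl`: for `u` of class `EG 0` we do NOT claim anything (see M14).
-/

open scoped MatrixGroups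

namespace H65Z

private theorem m2_bd {N : ℕ} {u : ℂ → ℂ} (h : EG N u) {δ : ℝ} (hδ : 0 < δ) :
    ∃ (C : ℝ) (M : ℕ), 0 ≤ C ∧ ∀ z : ℂ, δ ≤ z.im →
      ‖u z‖ ≤ C * (1 + ‖z‖) ^ M * Real.exp (-(2 * Real.pi * N * z.im)) := by
  obtain ⟨C, M, hC⟩ := h.bd δ hδ
  refine ⟨|C|, M, abs_nonneg C, fun z hz => (hC z hz).trans ?_⟩
  exact mul_le_mul_of_nonneg_right (mul_le_mul_of_nonneg_right (le_abs_self C) (by positivity))
    (Real.exp_pos _).le

theorem EG.mono {M N : ℕ} {u : ℂ → ℂ} (h : EG N u) (hMN : M ≤ N) : EG M u := by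
  refine ⟨h.diff, fun δ hδ => ?_⟩
  obtain ⟨C, K, hC0, hC⟩ := m2_bd h hδ
  refine ⟨C, K, fun z hz => (hC z hz).trans (mul_le_mul_of_nonneg_left ?_ (by positivity))⟩
  refine Real.exp_le_exp.2 (neg_le_neg ?_)
  have h1 : (M : ℝ) ≤ (N : ℝ) := by exact_mod_cast hMN
  have h2 : 0 ≤ z.im := hδ.le.trans hz
  exact mul_le_mul_of_nonneg_right (mul_le_mul_of_nonneg_left h1 (by positivity)) h2

theorem EG.congr {N : ℕ} {u v : ℂ → ℂ} (h : EG N u) (huv : ∀ z ∈ HH, v z = u z) : EG N v := by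
  refine ⟨h.diff.congr huv, fun δ hδ => ?_⟩
  obtain ⟨C, K, hC⟩ := h.bd δ hδ
  refine ⟨C, K, fun z hz => ?_⟩
  rw [huv z (lt_of_lt_of_le hδ hz)]
  exact hC z hz

theorem EG.add {N : ℕ} {u v : ℂ → ℂ} (hu : EG N u) (hv : EG N v) : EG N fun z => u z + v z := by
  refine ⟨hu.diff.add hv.diff, fun δ hδ => ?_⟩
  obtain ⟨C, K, hC0, hC⟩ := m2_bd hu hδ
  obtain ⟨C', K', hC0', hC'⟩ := m2_bd hv hδ
  refine ⟨C + C', K + K', fun z hz => ?_⟩
  have h1 : (1 : ℝ) ≤ 1 + ‖z‖ := by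
    have := norm_nonneg z
    linarith
  have h2 : (1 + ‖z‖) ^ K ≤ (1 + ‖z‖) ^ (K + K') := pow_le_pow_right₀ h1 (Nat.le_add_right _ _)
  have h3 : (1 + ‖z‖) ^ K' ≤ (1 + ‖z‖) ^ (K + K') := pow_le_pow_right₀ h1 (Nat.le_add_left _ _)
  have he := (Real.exp_pos (-(2 * Real.pi * N * z.im))).le
  calc ‖u z + v z‖ ≤ ‖u z‖ + ‖v z‖ := norm_add_le _ _
    _ ≤ C * (1 + ‖z‖) ^ K * Real.exp (-(2 * Real.pi * N * z.im)) +
        C' * (1 + ‖z‖) ^ K' * Real.exp (-(2 * Real.pi * N * z.im)) :=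
        add_le_add (hC z hz) (hC' z hz)
    _ ≤ C * (1 + ‖z‖) ^ (K + K') * Real.exp (-(2 * Real.pi * N * z.im)) +
        C' * (1 + ‖z‖) ^ (K + K') * Real.exp (-(2 * Real.pi * N * z.im)) :=
        add_le_add (mul_le_mul_of_nonneg_right (mul_le_mul_of_nonneg_left h2 hC0) he)
          (mul_le_mul_of_nonneg_right (mul_le_mul_of_nonneg_left h3 hC0') he)
    _ = (C + C') * (1 + ‖z‖) ^ (K + K') * Real.exp (-(2 * Real.pi * N * z.im)) := by ring

theorem EG.mul {M N : ℕ} {u v : ℂ → ℂ} (hu : EG M u) (hv : EG N v) :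
    EG (M + N) fun z => u z * v z := by
  refine ⟨hu.diff.mul hv.diff, fun δ hδ => ?_⟩
  obtain ⟨C, K, hC0, hC⟩ := m2_bd hu hδ
  obtain ⟨C', K', hC0', hC'⟩ := m2_bd hv hδ
  refine ⟨C * C', K + K', fun z hz => ?_⟩
  calc ‖u z * v z‖ = ‖u z‖ * ‖v z‖ := norm_mul _ _
    _ ≤ (C * (1 + ‖z‖) ^ K * Real.exp (-(2 * Real.pi * M * z.im))) *
        (C' * (1 + ‖z‖) ^ K' * Real.exp (-(2 * Real.pi * N * z.im))) :=
        mul_le_mul (hC z hz) (hC' z hz) (norm_nonneg _) (by positivity)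
    _ = C * C' * (1 + ‖z‖) ^ (K + K') * (Real.exp (-(2 * Real.pi * M * z.im)) *
          Real.exp (-(2 * Real.pi * N * z.im))) := by
        rw [pow_add]
        ring
    _ = C * C' * (1 + ‖z‖) ^ (K + K') *
          Real.exp (-(2 * Real.pi * ((M + N : ℕ) : ℝ) * z.im)) := by
        rw [← Real.exp_add]
        congr 2
        push_cast
        ring

theorem EG_const (c : ℂ) : EG 0 fun _ => c := by
  refine ⟨differentiableOn_const c, fun δ hδ => ⟨‖c‖, 0, fun z hz => ?_⟩⟩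
  simp

theorem EG_id : EG 0 fun z => z := by
  refine ⟨differentiableOn_id, fun δ hδ => ⟨1, 1, fun z hz => ?_⟩⟩
  simp

theorem EG_zero (N : ℕ) : EG N fun _ => 0 := by
  refine ⟨differentiableOn_const 0, fun δ hδ => ⟨0, 0, fun z hz => ?_⟩⟩
  simp

theorem EG.smul {N : ℕ} {u : ℂ → ℂ} (c : ℂ) (h : EG N u) : EG N fun z => c * u z := by
  have h1 := (EG_const c).mul h
  rwa [Nat.zero_add] at h1

theorem EG.pow {N : ℕ} {u : ℂ → ℂ} (h : EG N u) (n : ℕ) : EG (n * N) fun z => u z ^ n := by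
  induction n with
  | zero =>
    rw [Nat.zero_mul]
    exact (EG_const 1).congr fun z _ => pow_zero _
  | succ n ih =>
    rw [Nat.succ_mul]
    exact (ih.mul h).congr fun z _ => pow_succ _ _

theorem EG.sum {ι : Type*} (s : Finset ι) {N : ℕ} {u : ι → ℂ → ℂ} (h : ∀ i ∈ s, EG N (u i)) :
    EG N fun z => ∑ i ∈ s, u i z := by
  classical
  induction s using Finset.induction_on with
  | empty => exact (EG_zero N).congr fun z _ => Finset.sum_empty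
  | insert a s ha ih =>
    exact ((h a (Finset.mem_insert_self a s)).add
      (ih fun i hi => h i (Finset.mem_insert_of_mem hi))).congr fun z _ => Finset.sum_insert ha

theorem EG.prod {ι : Type*} (s : Finset ι) {u : ι → ℂ → ℂ} (h : ∀ i ∈ s, EG 0 (u i)) :
    EG 0 fun z => ∏ i ∈ s, u i z := by
  classical
  induction s using Finset.induction_on with
  | empty => exact (EG_const 1).congr fun z _ => Finset.prod_empty
  | insert a s ha ih =>
    exact ((h a (Finset.mem_insert_self a s)).mul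
      (ih fun i hi => h i (Finset.mem_insert_of_mem hi))).congr fun z _ => Finset.prod_insert ha

theorem EG_jo (γ : SL(2, ℤ)) : EG 0 (jo γ) :=
  (EG_id.smul ((γ 1 0 : ℤ) : ℂ)).add (EG_const ((γ 1 1 : ℤ) : ℂ))

private theorem m2_norm (γ : SL(2, ℤ)) {δ : ℝ} (hδ : 0 < δ) {z : ℂ} (hz : δ ≤ z.im) :
    1 ≤ ‖jo γ z‖ ∨ δ ≤ ‖jo γ z‖ := by
  by_cases hc : (γ 1 0 : ℤ) = 0
  · left
    have hdet : (γ 0 0 : ℤ) * γ 1 1 - γ 0 1 * γ 1 0 = 1 := by
      have h1 := γ.det_coe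
      rw [Matrix.det_fin_two] at h1
      exact h1
    rw [hc, mul_zero, sub_zero] at hdet
    have h2 : (γ 1 1 : ℤ) ≠ 0 := by
      intro h
      rw [h, mul_zero] at hdet
      exact zero_ne_one hdet
    have h3 : (1 : ℤ) ≤ |(γ 1 1 : ℤ)| := Int.one_le_abs h2
    have h4 : jo γ z = ((γ 1 1 : ℤ) : ℂ) := by
      unfold jo
      rw [hc]
      simp
    rw [h4, Complex.norm_intCast]
    exact_mod_cast h3
  · right
    have h3 : (1 : ℤ) ≤ |(γ 1 0 : ℤ)| := Int.one_le_abs hc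
    have h4 : (jo γ z).im = ((γ 1 0 : ℤ) : ℝ) * z.im := by
      unfold jo
      rw [Complex.add_im, Complex.mul_im, Complex.intCast_re, Complex.intCast_im,
        Complex.intCast_im]
      ring
    have h5 := Complex.abs_im_le_norm (jo γ z)
    rw [h4, abs_mul] at h5
    have h6 : (1 : ℝ) ≤ |((γ 1 0 : ℤ) : ℝ)| := by exact_mod_cast h3
    have h7 : δ ≤ |z.im| := hz.trans (le_abs_self _)
    calc δ = 1 * δ := (one_mul _).symm
      _ ≤ |((γ 1 0 : ℤ) : ℝ)| * |z.im| := mul_le_mul h6 h7 hδ.le (abs_nonneg _)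
      _ ≤ ‖jo γ z‖ := h5

theorem EG_inv_jo (γ : SL(2, ℤ)) : EG 0 fun z => (jo γ z)⁻¹ := by
  refine ⟨(EG_jo γ).diff.inv fun z hz => jo_ne γ hz, fun δ hδ => ⟨1 + δ⁻¹, 0, fun z hz => ?_⟩⟩
  have h1 : 0 < δ⁻¹ := inv_pos.2 hδ
  have h2 : ‖(jo γ z)⁻¹‖ ≤ 1 + δ⁻¹ := by
    rw [norm_inv]
    rcases m2_norm γ hδ hz with h | h
    · have h3 : ‖jo γ z‖⁻¹ ≤ 1 := inv_le_one_of_one_le₀ h
      linarith
    · have h3 : ‖jo γ z‖⁻¹ ≤ δ⁻¹ := inv_anti₀ hδ h
      linarith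
  simpa using h2

end H65Z
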