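import Pool.Agent.Lib.H65Z.B4
import Pool.Agent.Lib.H65Z.M2
import Pool.Agent.Lib.H6V.X4

/-!
# H65Z, chunk B5 (S/M): the coefficients are forms of level one

PROOF. `zC f = ktoC (toQ f)` (coefficientwise), so `zC dl`, `zC e4` converge (`H53M.X.Cv_dl, Cv_e4` of Lib/H53M/X16.lean) and transform by `dl_mob`, `e4_mob` (Lib/H6V/X4.lean). `Lv W i = dl^i * e4^(3 (W-i))`,
`Cv_pow`, `Cv_mul`, `ev_pow`, `ev_mul` (Lib/H53M/KEV.lean), weight `12 i + 12 (W - i) = 12 W`. The determinant: `Matrix.SpecialLinearGroup.det_coe`, `Matrix.det_fin_two`. `EG 0`: `EG_ev` with `N = 0`, and finite sums (`EG.sum`, `EG.smul` of M2, import M2 if needed).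
-/

open scoped MatrixGroups

namespace H65Z

open H53M

private theorem b5_zC (f : PowerSeries ℤ) : zC f = ktoC (toQ f) := by
  ext n
  simp [PowerSeries.coeff_map]

private theorem b5_Lv (W i : ℕ) :
    zC (H36D.Lv W i) = ktoC (toQ dl) ^ i * ktoC (toQ e4) ^ (3 * (W - i)) := by
  rw [H36D.Lv, map_mul, map_pow, map_pow, b5_zC, b5_zC]

theorem Cv_Lv (W i : ℕ) : Cv (zC (H36D.Lv W i)) := by
  rw [b5_Lv]
  exact Cv_mul (Cv_pow X.Cv_dl _) (Cv_pow X.Cv_e4 _)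

theorem L1_Lv (W : ℕ) (c : ℕ → ℂ) :
    L1 (12 * W) fun z => ∑ i ∈ Finset.range (W + 1), c i * ev (zC (H36D.Lv W i)) z := by
  refine ⟨EG.sum _ fun i _ => EG.smul (c i)
    (EG_ev (Cv_Lv W i) fun n hn => absurd hn (Nat.not_lt_zero n)), fun γ z hz => ?_⟩
  have hdet : (γ 0 0 : ℤ) * γ 1 1 - γ 0 1 * γ 1 0 = 1 := by
    have h := Matrix.SpecialLinearGroup.det_coe γ
    rw [Matrix.det_fin_two] at h
    exact h
  have hz1 : 0 < z.im := hz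
  have hz2 : 0 < (mo γ z).im := mo_mem γ hz
  have h4 : ev (ktoC (toQ e4)) (mo γ z) = jo γ z ^ 4 * ev (ktoC (toQ e4)) z :=
    H6V.e4_mob hdet hz1
  have h12 : ev (ktoC (toQ dl)) (mo γ z) = jo γ z ^ 12 * ev (ktoC (toQ dl)) z :=
    H6V.dl_mob hdet hz1
  change ∑ i ∈ Finset.range (W + 1), c i * ev (zC (H36D.Lv W i)) (mo γ z) =
    jo γ z ^ (12 * W) * ∑ i ∈ Finset.range (W + 1), c i * ev (zC (H36D.Lv W i)) z
  rw [Finset.mul_sum]
  refine Finset.sum_congr rfl fun i hi => ?_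
  have hi' : i ≤ W := Nat.lt_succ_iff.1 (Finset.mem_range.1 hi)
  rw [b5_Lv, ev_mul (Cv_pow X.Cv_dl _) (Cv_pow X.Cv_e4 _) hz2,
    ev_mul (Cv_pow X.Cv_dl _) (Cv_pow X.Cv_e4 _) hz1, ev_pow X.Cv_dl _ hz2, ev_pow X.Cv_e4 _ hz2,
    ev_pow X.Cv_dl _ hz1, ev_pow X.Cv_e4 _ hz1, h4, h12, mul_pow, mul_pow, ← pow_mul, ← pow_mul]
  have hw : 12 * W = 12 * i + 4 * (3 * (W - i)) := by omega
  rw [hw, pow_add]
  ring

end H65Z
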