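import Pool.Agent.Lib.H65Z.B3
import Pool.Agent.Lib.H65Z.B5

/-!
# H65Z, chunk B6 (S/M): the auxiliary series as a function

PROOF. `Cv_sum`, `Cv_smul`, `Cv_mul`, `Cv_Lv`, products and powers (`Hm h g = ∏ s, h s ^ g s`: `Cv` and `ev` of a finite product by induction, from `Cv_mul, ev_mul, Cv_one, ev_one`), `Cv_hs`; `ev_sum`, `ev_smul`, `ev_mul`, `ev_pow`
(Lib/H53M/KEV.lean). The sum over `Ix r J W` is the double sum over `piAntidiag` and `range (W+1)` (`Finset.sum_product`), `Finset.sum_mul`.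
-/

namespace H65Z

open H53M

private theorem b6_prod {r : ℕ} (s : Finset (Fin r)) (f : Fin r → PowerSeries ℂ)
    (g : Fin r → ℕ) (h : ∀ i, Cv (f i)) :
    Cv (∏ i ∈ s, f i ^ g i) ∧
      ∀ z ∈ HH, ev (∏ i ∈ s, f i ^ g i) z = ∏ i ∈ s, ev (f i) z ^ g i := by
  classical
  induction s using Finset.induction_on with
  | empty =>
    refine ⟨?_, fun z hz => ?_⟩
    · rw [Finset.prod_empty]
      exact Cv_one
    · rw [Finset.prod_empty, Finset.prod_empty]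
      exact ev_one hz
  | insert a s ha ih =>
    refine ⟨?_, fun z hz => ?_⟩
    · rw [Finset.prod_insert ha]
      exact Cv_mul (Cv_pow (h a) _) ih.1
    · rw [Finset.prod_insert ha, Finset.prod_insert ha, ev_mul (Cv_pow (h a) _) ih.1 hz,
        ev_pow (h a) _ hz, ih.2 z hz]

private theorem b6_term {r : ℕ} (a : ℕ → ℂ) (C : ℝ) (K : ℕ)
    (ha : ∀ n, ‖a n‖ ≤ C * ((n : ℝ) + 1) ^ K) (d : Fin r → ℕ) (hd : ∀ s, 1 ≤ d s) (W : ℕ)
    (t : (Fin r → ℕ) × ℕ) (x : ℂ) :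
    Cv (x • (zC (H36D.Lv W t.2) * H36D.Hm (fun s => hs a (d s)) t.1)) ∧
      ∀ z ∈ HH, ev (x • (zC (H36D.Lv W t.2) * H36D.Hm (fun s => hs a (d s)) t.1)) z =
        x * (ev (zC (H36D.Lv W t.2)) z * ∏ s, ev (hs a (d s)) z ^ t.1 s) := by
  have h1 := b6_prod Finset.univ (fun s => hs a (d s)) t.1 (fun s => Cv_hs a C K ha (d s) (hd s))
  have h2 : H36D.Hm (fun s => hs a (d s)) t.1 = ∏ s, hs a (d s) ^ t.1 s := rfl
  rw [h2]
  have h3 : Cv (zC (H36D.Lv W t.2) * ∏ s, hs a (d s) ^ t.1 s) := Cv_mul (Cv_Lv W t.2) h1.1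
  refine ⟨Cv_smul _ h3, fun z hz => ?_⟩
  rw [ev_smul _ h3 hz, ev_mul (Cv_Lv W t.2) h1.1 hz, h1.2 z hz]

theorem Cv_AA {r : ℕ} (a : ℕ → ℂ) (C : ℝ) (K : ℕ) (ha : ∀ n, ‖a n‖ ≤ C * ((n : ℝ) + 1) ^ K)
    (d : Fin r → ℕ) (hd : ∀ s, 1 ≤ d s) (J W : ℕ) (c : (Fin r → ℕ) × ℕ → ℂ) :
    Cv (AA a d J W c) := by
  unfold AA
  exact Cv_sum _ _ fun t _ => (b6_term a C K ha d hd W t (c t)).1

theorem ev_AA {r : ℕ} (a : ℕ → ℂ) (C : ℝ) (K : ℕ) (ha : ∀ n, ‖a n‖ ≤ C * ((n : ℝ) + 1) ^ K)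
    (d : Fin r → ℕ) (hd : ∀ s, 1 ≤ d s) (J W : ℕ) (c : (Fin r → ℕ) × ℕ → ℂ) {z : ℂ}
    (hz : z ∈ HH) :
    ev (AA a d J W c) z =
      FF J (fun al z => ∑ i ∈ Finset.range (W + 1), c (al, i) * ev (zC (H36D.Lv W i)) z)
        (fun s => ev (hs a (d s))) z := by
  unfold AA
  rw [ev_sum _ _ (fun t _ => (b6_term a C K ha d hd W t (c t)).1) hz]
  unfold FF H36D.Ix
  rw [Finset.sum_product]
  refine Finset.sum_congr rfl fun al _ => ?_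
  rw [Finset.sum_mul]
  refine Finset.sum_congr rfl fun i _ => ?_
  rw [(b6_term a C K ha d hd W (al, i) (c (al, i))).2 z hz]
  ring

end H65Z
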