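import Mathlib

/-!
# H65Z, chunk M13 (M): polynomials with bounded partial degrees

PROOF. `X_s = κ_s + Σ_t y(s,t) c^t d^(k-t)` as a polynomial in the `r + 2` variables `κ_s, c, d` (`MvPolynomial (Fin r ⊕ Bool) ℂ` or `Option`, coefficients `y`), of degree `≤ 1` in `κ_s`, `0` in the other `κ`, `≤ k` in `c` and in `d`.
`Q = Σ_al P(al) ∏_s X_s^(al s)` has degree `≤ J` in every `κ_s` (only the powers of `X_s`, `al s ≤ J`) and `≤ J k` in `c` and `d` (`MvPolynomial.degreeOf_mul_le, degreeOf_pow_le, degreeOf_sum_le, degreeOf_add_le`).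
`Co` is defined as the coefficient of `Q`; evaluation: `MvPolynomial.eval_eq'`, the support lies in the box, extend the sum to the box (a bijection of the box with `(Fin r → Fin (J+1)) × Fin (J k+1) × Fin (J k+1)`).
Alternatively by hand: the statement is closed under sums (over `al`) and one proves by induction over the factors that a product of `n` factors `X_s` (with multiplicities `al`) has such an expansion with `κ_s`-degrees `≤ al s` and `c,d`-degrees `≤ n k`.
-/

namespace H65Z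

open MvPolynomial

private noncomputable def bxF (r k : ℕ) (y : Fin r → ℕ → ℂ) (s : Fin r) :
    MvPolynomial (Fin r ⊕ Bool) ℂ :=
  X (Sum.inl s) + ∑ t ∈ Finset.range (k + 1),
    C (y s t) * (X (Sum.inr false) ^ t * X (Sum.inr true) ^ (k - t))

private noncomputable def bxQ (r k J : ℕ) (P : (Fin r → ℕ) → ℂ) (y : Fin r → ℕ → ℂ) :
    MvPolynomial (Fin r ⊕ Bool) ℂ :=
  ∑ al ∈ Finset.piAntidiag (Finset.univ : Finset (Fin r)) J,
    C (P al) * ∏ s, bxF r k y s ^ al s

private theorem bxF_inl (r k : ℕ) (y : Fin r → ℕ → ℂ) (s s' : Fin r) :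
    degreeOf (Sum.inl s') (bxF r k y s) ≤ if s' = s then 1 else 0 := by
  unfold bxF
  refine (degreeOf_add_le _ _ _).trans (max_le ?_ ?_)
  · by_cases h : s' = s
    · rw [if_pos h, h, degreeOf_X, if_pos rfl]
    · rw [if_neg h, degreeOf_X_of_ne (fun h' => h (Sum.inl_injective h'))]
  · refine (degreeOf_sum_le _ _ _).trans (Finset.sup_le fun t _ => ?_)
    refine (degreeOf_mul_le _ _ _).trans ?_
    rw [degreeOf_C, zero_add]
    refine (degreeOf_mul_le _ _ _).trans ?_
    have h1 := degreeOf_pow_le (Sum.inl s') (X (Sum.inr false) : MvPolynomial (Fin r ⊕ Bool) ℂ) t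
    have h2 := degreeOf_pow_le (Sum.inl s') (X (Sum.inr true) : MvPolynomial (Fin r ⊕ Bool) ℂ)
      (k - t)
    rw [degreeOf_X_of_ne (by simp), mul_zero] at h1 h2
    omega

private theorem bxF_inr (r k : ℕ) (y : Fin r → ℕ → ℂ) (s : Fin r) (b : Bool) :
    degreeOf (Sum.inr b) (bxF r k y s) ≤ k := by
  unfold bxF
  refine (degreeOf_add_le _ _ _).trans (max_le ?_ ?_)
  · rw [degreeOf_X_of_ne (by simp)]
    exact Nat.zero_le _
  · refine (degreeOf_sum_le _ _ _).trans (Finset.sup_le fun t ht => ?_)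
    have ht' : t ≤ k := Nat.lt_succ_iff.mp (Finset.mem_range.mp ht)
    refine (degreeOf_mul_le _ _ _).trans ?_
    rw [degreeOf_C, zero_add]
    refine (degreeOf_mul_le _ _ _).trans ?_
    have h1 := degreeOf_pow_le (Sum.inr b) (X (Sum.inr false) : MvPolynomial (Fin r ⊕ Bool) ℂ) t
    have h2 := degreeOf_pow_le (Sum.inr b) (X (Sum.inr true) : MvPolynomial (Fin r ⊕ Bool) ℂ)
      (k - t)
    cases b with
    | false =>
      rw [degreeOf_X, if_pos rfl, mul_one] at h1
      rw [degreeOf_X_of_ne (by simp), mul_zero] at h2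
      omega
    | true =>
      rw [degreeOf_X_of_ne (by simp), mul_zero] at h1
      rw [degreeOf_X, if_pos rfl, mul_one] at h2
      omega

private theorem bxQ_inl (r k J : ℕ) (P : (Fin r → ℕ) → ℂ) (y : Fin r → ℕ → ℂ) (s' : Fin r) :
    degreeOf (Sum.inl s') (bxQ r k J P y) ≤ J := by
  unfold bxQ
  refine (degreeOf_sum_le _ _ _).trans (Finset.sup_le fun al hal => ?_)
  have hJ : ∑ s, al s = J := (Finset.mem_piAntidiag.mp hal).1
  refine (degreeOf_mul_le _ _ _).trans ?_
  rw [degreeOf_C, zero_add]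
  refine (degreeOf_prod_le _ _ _).trans ?_
  calc ∑ s, degreeOf (Sum.inl s') (bxF r k y s ^ al s) ≤ ∑ s, al s := by
        refine Finset.sum_le_sum fun s _ => (degreeOf_pow_le _ _ _).trans ?_
        calc al s * degreeOf (Sum.inl s') (bxF r k y s) ≤ al s * 1 := by
              refine Nat.mul_le_mul_left _ ((bxF_inl r k y s s').trans ?_)
              split_ifs <;> omega
          _ = al s := mul_one _
    _ = J := hJ

private theorem bxQ_inr (r k J : ℕ) (P : (Fin r → ℕ) → ℂ) (y : Fin r → ℕ → ℂ) (b : Bool) :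
    degreeOf (Sum.inr b) (bxQ r k J P y) ≤ J * k := by
  unfold bxQ
  refine (degreeOf_sum_le _ _ _).trans (Finset.sup_le fun al hal => ?_)
  have hJ : ∑ s, al s = J := (Finset.mem_piAntidiag.mp hal).1
  refine (degreeOf_mul_le _ _ _).trans ?_
  rw [degreeOf_C, zero_add]
  refine (degreeOf_prod_le _ _ _).trans ?_
  calc ∑ s, degreeOf (Sum.inr b) (bxF r k y s ^ al s) ≤ ∑ s, al s * k :=
        Finset.sum_le_sum fun s _ => (degreeOf_pow_le _ _ _).trans
          (Nat.mul_le_mul_left _ (bxF_inr r k y s b))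
    _ = J * k := by rw [← Finset.sum_mul, hJ]

private noncomputable def bxE {r k J : ℕ}
    (e : (Fin r → Fin (J + 1)) × Fin (J * k + 1) × Fin (J * k + 1)) : (Fin r ⊕ Bool) →₀ ℕ :=
  Finsupp.equivFunOnFinite.symm
    (Sum.elim (fun s => (e.1 s : ℕ)) (fun b => if b then (e.2.2 : ℕ) else (e.2.1 : ℕ)))

private theorem bxE_inl {r k J : ℕ}
    (e : (Fin r → Fin (J + 1)) × Fin (J * k + 1) × Fin (J * k + 1)) (s : Fin r) :
    bxE e (Sum.inl s) = (e.1 s : ℕ) := rfl

private theorem bxE_false {r k J : ℕ}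
    (e : (Fin r → Fin (J + 1)) × Fin (J * k + 1) × Fin (J * k + 1)) :
    bxE e (Sum.inr false) = (e.2.1 : ℕ) := rfl

private theorem bxE_true {r k J : ℕ}
    (e : (Fin r → Fin (J + 1)) × Fin (J * k + 1) × Fin (J * k + 1)) :
    bxE e (Sum.inr true) = (e.2.2 : ℕ) := rfl

private theorem bxE_inj {r k J : ℕ} : Function.Injective (bxE (r := r) (k := k) (J := J)) := by
  intro e e' h
  have h1 : e.1 = e'.1 := by
    funext s
    have h2 := DFunLike.congr_fun h (Sum.inl s)
    rw [bxE_inl, bxE_inl] at h2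
    exact Fin.ext h2
  have h3 : e.2.1 = e'.2.1 := by
    have h2 := DFunLike.congr_fun h (Sum.inr false)
    rw [bxE_false, bxE_false] at h2
    exact Fin.ext h2
  have h4 : e.2.2 = e'.2.2 := by
    have h2 := DFunLike.congr_fun h (Sum.inr true)
    rw [bxE_true, bxE_true] at h2
    exact Fin.ext h2
  exact Prod.ext h1 (Prod.ext h3 h4)

theorem box_exp (r k J : ℕ) :
    ∃ Co : ((Fin r → ℕ) → ℂ) → (Fin r → ℕ → ℂ) →
        (Fin r → Fin (J + 1)) × Fin (J * k + 1) × Fin (J * k + 1) → ℂ,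
      ∀ (P : (Fin r → ℕ) → ℂ) (y : Fin r → ℕ → ℂ) (κ : Fin r → ℂ) (c d : ℂ),
        ∑ al ∈ Finset.piAntidiag (Finset.univ : Finset (Fin r)) J, P al *
            ∏ s, (κ s + ∑ t ∈ Finset.range (k + 1), y s t * (c ^ t * d ^ (k - t))) ^ al s =
          ∑ e : (Fin r → Fin (J + 1)) × Fin (J * k + 1) × Fin (J * k + 1),
            ((∏ s, κ s ^ (e.1 s : ℕ)) * c ^ (e.2.1 : ℕ) * d ^ (e.2.2 : ℕ)) * Co P y e := by
  classical
  refine ⟨fun P y e => coeff (bxE e) (bxQ r k J P y), fun P y κ c d => ?_⟩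
  have h1 : eval (Sum.elim κ (fun b => if b then d else c)) (bxQ r k J P y) =
      ∑ al ∈ Finset.piAntidiag (Finset.univ : Finset (Fin r)) J, P al *
        ∏ s, (κ s + ∑ t ∈ Finset.range (k + 1), y s t * (c ^ t * d ^ (k - t))) ^ al s := by
    simp [bxQ, bxF, map_sum, map_prod]
  have h2 : ∀ e : (Fin r → Fin (J + 1)) × Fin (J * k + 1) × Fin (J * k + 1),
      ∏ i, (Sum.elim κ (fun b => if b then d else c) i) ^ (bxE e i) =
        (∏ s, κ s ^ (e.1 s : ℕ)) * c ^ (e.2.1 : ℕ) * d ^ (e.2.2 : ℕ) := by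
    intro e
    rw [Fintype.prod_sum_type, Fintype.prod_bool]
    simp only [Sum.elim_inl, Sum.elim_inr, bxE_inl, bxE_false, bxE_true, if_true]
    rw [if_neg Bool.false_ne_true]
    ring
  rw [← h1, eval_eq']
  have h3 : (bxQ r k J P y).support ⊆
      Finset.univ.image (bxE (r := r) (k := k) (J := J)) := by
    intro m hm
    rw [Finset.mem_image]
    have ha : ∀ s, m (Sum.inl s) ≤ J := fun s =>
      (monomial_le_degreeOf _ hm).trans (bxQ_inl r k J P y s)
    have hb : ∀ b, m (Sum.inr b) ≤ J * k := fun b =>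
      (monomial_le_degreeOf _ hm).trans (bxQ_inr r k J P y b)
    refine ⟨(fun s => ⟨m (Sum.inl s), Nat.lt_succ_of_le (ha s)⟩,
      ⟨m (Sum.inr false), Nat.lt_succ_of_le (hb false)⟩,
      ⟨m (Sum.inr true), Nat.lt_succ_of_le (hb true)⟩), Finset.mem_univ _, ?_⟩
    ext i
    rcases i with s | b
    · rfl
    · cases b <;> rfl
  rw [Finset.sum_subset h3 (fun m _ hm => by rw [notMem_support_iff.mp hm, zero_mul]),
    Finset.sum_image (fun e _ e' _ h => bxE_inj h)]
  refine Finset.sum_congr rfl fun e _ => ?_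
  rw [h2, mul_comm]

end H65Z
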