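import Pool.Agent.Lib.H65Z.M12
import Pool.Agent.Lib.H65Z.M13

/-!
# H65Z, chunk M14 (M): the expansion of all the translates

PROOF. `I` from `exp_one`; for `γ` choose `j s`, `κ s` (for `H s`, `i s`). `sl w γ F z = Σ_al P al z ∏_s H_s(mo γ z)^(al s)` (the factor `jo^w` cancels, `jo_ne`). `box_exp` for `P al z` and
`y s t = (k.choose t) * I (j s) t z`: `Φ (j, e) z = Co (fun al => P al z) (fun s t => (k.choose t) * I (j s) t z) e`, and `φ γ (j', e) = (∏ κ^e) c^.. d^..` if `j' = j(γ)`, `0` otherwise.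
`EG 0 (sl w γ F)`: it is equal on `HH` to `Σ_al P al z ∏_s (κ s + Σ_t .. I (j s) t z)^(al s)` (M2).
-/

open scoped MatrixGroups

namespace H65Z

private theorem m14_sl {r k w J : ℕ} (H : Fin r → ℂ → ℂ) (P : (Fin r → ℕ) → ℂ → ℂ)
    (hP : ∀ al, L1 w (P al)) (γ : SL(2, ℤ)) (κ : Fin r → ℂ) (y : Fin r → ℕ → ℂ → ℂ)
    (hy : ∀ s, ∀ z ∈ HH, H s (mo γ z) = κ s + ∑ t ∈ Finset.range (k + 1),
      (k.choose t : ℂ) * ((γ 1 0 : ℤ) : ℂ) ^ t * ((γ 1 1 : ℤ) : ℂ) ^ (k - t) * y s t z)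
    {z : ℂ} (hz : z ∈ HH) :
    sl w γ (FF J P H) z =
      ∑ al ∈ Finset.piAntidiag (Finset.univ : Finset (Fin r)) J, P al z *
        ∏ s, (κ s + ∑ t ∈ Finset.range (k + 1), ((k.choose t : ℂ) * y s t z) *
          (((γ 1 0 : ℤ) : ℂ) ^ t * ((γ 1 1 : ℤ) : ℂ) ^ (k - t))) ^ al s := by
  have hj : jo γ z ^ w ≠ 0 := pow_ne_zero _ (jo_ne γ hz)
  unfold sl FF
  rw [Finset.mul_sum]
  refine Finset.sum_congr rfl fun al _ => ?_
  rw [(hP al).inv γ z hz, mul_assoc, inv_mul_cancel_left₀ hj]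
  refine congrArg (fun u => P al z * u) ?_
  refine Finset.prod_congr rfl fun s _ => ?_
  rw [hy s z hz]
  refine congrArg (fun u => (κ s + u) ^ al s) ?_
  refine Finset.sum_congr rfl fun t _ => ?_
  ring

private theorem m14_eg {r k w J : ℕ} (P : (Fin r → ℕ) → ℂ → ℂ)
    (hP : ∀ al, L1 w (P al)) (κ : Fin r → ℂ) (y : Fin r → ℕ → ℂ → ℂ)
    (hy : ∀ s t, EG 0 (y s t)) (q : ℕ → ℂ) :
    EG 0 fun z => ∑ al ∈ Finset.piAntidiag (Finset.univ : Finset (Fin r)) J, P al z *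
        ∏ s, (κ s + ∑ t ∈ Finset.range (k + 1), ((k.choose t : ℂ) * y s t z) * q t) ^ al s := by
  refine EG.sum _ fun al _ => ?_
  have h1 : ∀ s, EG 0 fun z => κ s + ∑ t ∈ Finset.range (k + 1),
      ((k.choose t : ℂ) * y s t z) * q t := by
    intro s
    refine EG.add (EG_const (κ s)) (EG.sum _ fun t _ => ?_)
    refine EG.congr (EG.smul ((k.choose t : ℂ) * q t) (hy s t)) fun z _ => ?_
    ring
  have h2 : EG 0 fun z => ∏ s, (κ s + ∑ t ∈ Finset.range (k + 1),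
      ((k.choose t : ℂ) * y s t z) * q t) ^ al s := by
    refine EG.prod _ fun s _ => ?_
    have h3 := EG.pow (h1 s) (al s)
    rw [Nat.mul_zero] at h3
    exact h3
  exact EG.mul (hP al).eg h2

theorem exp_F {r k w J : ℕ} {ι : Type} [Fintype ι] [DecidableEq ι] {g : ι → ℂ → ℂ} (hg : Fam k g)
    (H : Fin r → ℂ → ℂ) (i : Fin r → ι) (hH : ∀ s, ∀ z ∈ HH, HasDerivAt (H s) (g (i s) z) z)
    (P : (Fin r → ℕ) → ℂ → ℂ) (hP : ∀ al, L1 w (P al)) :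
    (∃ (φ : SL(2, ℤ) → Bx ι r k J → ℂ) (Φ : Bx ι r k J → ℂ → ℂ),
      ∀ γ, ∀ z ∈ HH, sl w γ (FF J P H) z = ∑ e, φ γ e * Φ e z) ∧
    ∀ γ, EG 0 (sl w γ (FF J P H)) := by
  obtain ⟨I, hI, hexp⟩ := exp_one hg
  obtain ⟨Co, hCo⟩ := box_exp r k J
  have hex : ∀ (γ : SL(2, ℤ)) (s : Fin r), ∃ (j : ι) (κ : ℂ), ∀ z ∈ HH,
      H s (mo γ z) = κ + ∑ t ∈ Finset.range (k + 1),
        (k.choose t : ℂ) * ((γ 1 0 : ℤ) : ℂ) ^ t * ((γ 1 1 : ℤ) : ℂ) ^ (k - t) * I j t z :=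
    fun γ s => hexp (H s) (i s) (hH s) γ
  choose j κ hjk using hex
  have key : ∀ (γ : SL(2, ℤ)), ∀ z ∈ HH, sl w γ (FF J P H) z =
      ∑ al ∈ Finset.piAntidiag (Finset.univ : Finset (Fin r)) J, P al z *
        ∏ s, (κ γ s + ∑ t ∈ Finset.range (k + 1), ((k.choose t : ℂ) * I (j γ s) t z) *
          (((γ 1 0 : ℤ) : ℂ) ^ t * ((γ 1 1 : ℤ) : ℂ) ^ (k - t))) ^ al s :=
    fun γ z hz => m14_sl H P hP γ (κ γ) (fun s t => I (j γ s) t) (fun s z hz => hjk γ s z hz) hz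
  refine ⟨⟨fun γ e => if e.1 = j γ then
      ((∏ s, κ γ s ^ (e.2.1 s : ℕ)) * ((γ 1 0 : ℤ) : ℂ) ^ (e.2.2.1 : ℕ) *
        ((γ 1 1 : ℤ) : ℂ) ^ (e.2.2.2 : ℕ)) else 0,
    fun e z => Co (fun al => P al z) (fun s t => (k.choose t : ℂ) * I (e.1 s) t z) e.2, ?_⟩, ?_⟩
  · intro γ z hz
    rw [key γ z hz, hCo (fun al => P al z) (fun s t => (k.choose t : ℂ) * I (j γ s) t z) (κ γ)
      ((γ 1 0 : ℤ) : ℂ) ((γ 1 1 : ℤ) : ℂ)]
    refine Eq.trans ?_ (Fintype.sum_prod_type _).symm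
    rw [Finset.sum_eq_single (j γ)]
    · refine Finset.sum_congr rfl fun e _ => ?_
      beta_reduce
      rw [if_pos rfl]
    · intro b _ hb
      refine Finset.sum_eq_zero fun e _ => ?_
      beta_reduce
      rw [if_neg hb, zero_mul]
    · intro h
      exact absurd (Finset.mem_univ _) h
  · intro γ
    refine EG.congr (m14_eg (J := J) (k := k) P hP (κ γ) (fun s t => I (j γ s) t)
      (fun s t => hI _ _)
      (fun t => ((γ 1 0 : ℤ) : ℂ) ^ t * ((γ 1 1 : ℤ) : ℂ) ^ (k - t))) fun z hz => ?_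
    exact key γ z hz

end H65Z
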