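import Pool.Agent.Lib.H65Z.M11
import Pool.Agent.Lib.H65Z.M14

/-!
# H65Z, chunk M15 (S): the bound

PROOF. `exp_F`, `wr_bound` with `E = Bx ι r k J`, `card E = (card ι)^r (J+1)^r (J k + 1)^2 ≤ (card ι)^r 2^r (k+1)^2 J^(r+2)` for `J ≥ 1`. `C = (card ι)^r 2^r (k+1)^2 + 1`.
-/

namespace H65Z

theorem zw {r k : ℕ} {ι : Type} [Fintype ι] {g : ι → ℂ → ℂ} (hg : Fam k g)
    (H : Fin r → ℂ → ℂ) (i : Fin r → ι) (hH : ∀ s, ∀ z ∈ HH, HasDerivAt (H s) (g (i s) z) z) :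
    ∃ C : ℕ, 1 ≤ C ∧ ∀ J w N : ℕ, 1 ≤ J → ∀ P : (Fin r → ℕ) → ℂ → ℂ, (∀ al, L1 w (P al)) →
      EG N (FF J P H) → (∃ z ∈ HH, FF J P H z ≠ 0) →
        12 * N ≤ C * J ^ (r + 2) * (w + C * J ^ (r + 2)) := by
  classical
  refine ⟨(Fintype.card ι) ^ r * 2 ^ r * (k + 1) ^ 2 + 1, Nat.le_add_left 1 _, ?_⟩
  intro J w N hJ P hP hEG hne
  obtain ⟨⟨φ, Φ, hexp⟩, hsl⟩ := exp_F (w := w) (J := J) hg H i hH P hP
  have h1 := wr_bound w N (FF J P H) hEG hne φ Φ hexp hsl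
  have hcard : Fintype.card (Bx ι r k J) ≤
      ((Fintype.card ι) ^ r * 2 ^ r * (k + 1) ^ 2 + 1) * J ^ (r + 2) := by
    have e1 : Fintype.card (Bx ι r k J) =
        (Fintype.card ι) ^ r * ((J + 1) ^ r * ((J * k + 1) * (J * k + 1))) := by
      simp [Bx, Fintype.card_prod, Fintype.card_fin]
    have e2 : (J + 1) ^ r ≤ 2 ^ r * J ^ r := by
      rw [← mul_pow]
      exact Nat.pow_le_pow_left (by omega) r
    have e3 : J * k + 1 ≤ J * (k + 1) := by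
      rw [Nat.mul_add]
      omega
    calc Fintype.card (Bx ι r k J)
        = (Fintype.card ι) ^ r * ((J + 1) ^ r * ((J * k + 1) * (J * k + 1))) := e1
      _ ≤ (Fintype.card ι) ^ r * ((2 ^ r * J ^ r) * ((J * (k + 1)) * (J * (k + 1)))) :=
          Nat.mul_le_mul_left _ (Nat.mul_le_mul e2 (Nat.mul_le_mul e3 e3))
      _ = ((Fintype.card ι) ^ r * 2 ^ r * (k + 1) ^ 2) * J ^ (r + 2) := by ring
      _ ≤ ((Fintype.card ι) ^ r * 2 ^ r * (k + 1) ^ 2 + 1) * J ^ (r + 2) :=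
          Nat.mul_le_mul_right _ (Nat.le_succ _)
  exact h1.trans (Nat.mul_le_mul hcard (Nat.add_le_add_left hcard w))

end H65Z
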