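import Pool.Agent.Lib.H65Z.B2
import Pool.Agent.Lib.H65Z.B6
import Pool.Agent.Lib.H65Z.M15

/-!
# H65Z, chunk B7 (S/M): the zero estimate

PROOF. `fam_of`: `ι, g, i`; `H s = ev (hs a (d s))`, `hs_deriv`, `zw`: `C₁ ≥ 1`. `C = C₁ * C₁`. Given `J ≥ 1`, `W`, `c` with `A = AA a d J W c ≠ 0`: `N` the least `n` with `coeff n A ≠ 0` (`Nat.find`). `EG N (ev A)` (`EG_ev`), so
`EG N (FF ..)` (`EG.congr`, `ev_AA`), `≠ 0` somewhere (`ev_ne`). `zw` with `w = 12 W`, `L1_Lv`: `12 N ≤ C₁ J^(r+2) (12 W + C₁ J^(r+2)) ≤ 12 C₁² J^(r+2) (W + J^(r+2))`.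
-/

namespace H65Z

theorem zero_est {r k N : ℕ} (hN : N ≠ 0) {a : ℕ → ℂ} (ha : CF N k a) (d : Fin r → ℕ)
    (hd : ∀ s, 1 ≤ d s) :
    ∃ C : ℕ, ∀ J W : ℕ, 1 ≤ J → ∀ c : (Fin r → ℕ) × ℕ → ℂ, AA a d J W c ≠ 0 →
      ∃ n ≤ C * J ^ (r + 2) * (W + J ^ (r + 2)), PowerSeries.coeff n (AA a d J W c) ≠ 0 := by
  classical
  obtain ⟨ι, hι, g, i, hg, hgi⟩ := fam_of hN ha d hd
  obtain ⟨C0, K, hgr⟩ := ha.growth
  obtain ⟨C1, hC1, hzw⟩ := zw hg (fun s => H53M.ev (hs a (d s))) i (fun s z hz => by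
    rw [hgi s z hz]
    exact hs_deriv a C0 K hgr ha.zero (d s) (hd s) hz)
  refine ⟨C1 * C1, fun J W hJ c hc => ?_⟩
  have hex : ∃ n, PowerSeries.coeff n (AA a d J W c) ≠ 0 := by
    by_contra hall
    push Not at hall
    exact hc (PowerSeries.ext fun n => by rw [hall n, map_zero])
  have hCv := Cv_AA a C0 K hgr d hd J W c
  have hEG : EG (Nat.find hex) (H53M.ev (AA a d J W c)) :=
    EG_ev hCv fun n hn => not_not.1 (Nat.find_min hex hn)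
  have hEG2 := hEG.congr (v := FF J (fun al z => ∑ i ∈ Finset.range (W + 1),
    c (al, i) * H53M.ev (zC (H36D.Lv W i)) z) (fun s => H53M.ev (hs a (d s))))
    (fun z hz => (ev_AA a C0 K hgr d hd J W c hz).symm)
  obtain ⟨z, hz, hne⟩ := ev_ne hCv hc
  rw [ev_AA a C0 K hgr d hd J W c hz] at hne
  have h12 := hzw J (12 * W) (Nat.find hex) hJ _ (fun al => L1_Lv W fun i => c (al, i)) hEG2
    ⟨z, hz, hne⟩
  refine ⟨Nat.find hex, ?_, Nat.find_spec hex⟩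
  obtain ⟨Q, hQ⟩ : ∃ Q : ℕ, Q = J ^ (r + 2) := ⟨_, rfl⟩
  rw [← hQ] at h12 ⊢
  have e1 : C1 * Q * (12 * W + C1 * Q) ≤ 12 * (C1 * C1 * Q * (W + Q)) := by
    obtain ⟨e, rfl⟩ : ∃ e, C1 = e + 1 := ⟨C1 - 1, by omega⟩
    have e2 : (e + 1) * Q * (12 * W) ≤ 12 * ((e + 1) * (e + 1) * Q * W) := by
      have : 12 * ((e + 1) * (e + 1) * Q * W) =
          (e + 1) * Q * (12 * W) + e * ((e + 1) * Q * (12 * W)) := by ring
      rw [this]
      exact Nat.le_add_right _ _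
    have e3 : (e + 1) * Q * ((e + 1) * Q) ≤ 12 * ((e + 1) * (e + 1) * Q * Q) := by
      have : 12 * ((e + 1) * (e + 1) * Q * Q) =
          (e + 1) * Q * ((e + 1) * Q) + 11 * ((e + 1) * Q * ((e + 1) * Q)) := by ring
      rw [this]
      exact Nat.le_add_right _ _
    calc (e + 1) * Q * (12 * W + (e + 1) * Q)
        = (e + 1) * Q * (12 * W) + (e + 1) * Q * ((e + 1) * Q) := by ring
      _ ≤ 12 * ((e + 1) * (e + 1) * Q * W) + 12 * ((e + 1) * (e + 1) * Q * Q) :=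
          Nat.add_le_add e2 e3
      _ = 12 * ((e + 1) * (e + 1) * Q * (W + Q)) := by ring
  exact Nat.le_of_mul_le_mul_left (h12.trans e1) (by norm_num)

end H65Z
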