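import Pool.Agent.Lib.H65Z.Defs
import Pool.Agent.Lib.H6V.X1

/-!
# H65Z, chunk B3 (S/M): the series `hs a d`

PROOF. `ev (hs a d) z = EE a 1 (d z)` for `d ≥ 1` (Lib/H6V/Defs.lean, X1.lean): the sum over `n` is supported on the multiples of `d`, `n = d m`
(`Function.Injective.tsum_eq` for `m ↦ d * m`, the support is in the range), `exp (2πi (d m) z) = exp (2πi m (d z))`. Summability of the norms (`Cv`): `Function.Injective.summable_iff` and `EE_summable a C K ha 1` at `d z`.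
`hs_deriv`: `EE_deriv a C K ha h0 0` at `d z` and the chain rule, `EE a 0 (d z) = ev (mk a) (d z)` (as `EE_zero`), `HasDerivAt.congr_of_eventuallyEq` is not needed if `ev (hs a d) = fun z => EE a 1 (d z)` is proved for all `z : ℂ`
(`tsum` of both sides are equal without summability).
-/

namespace H65Z

open H53M

private theorem B3_inj {d : ℕ} (hd : 1 ≤ d) : Function.Injective fun m : ℕ => d * m :=
  fun _ _ h => Nat.eq_of_mul_eq_mul_left hd h

private theorem B3_term (a : ℕ → ℂ) {d : ℕ} (hd : 1 ≤ d) (z : ℂ) (m : ℕ) :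
    PowerSeries.coeff (d * m) (hs a d) *
        Complex.exp (2 * Real.pi * Complex.I * (((d * m : ℕ) : ℂ) * z)) =
      a m * ((m : ℂ) ^ 1)⁻¹ * Complex.exp (2 * Real.pi * Complex.I * (m * ((d : ℂ) * z))) := by
  have e : 2 * Real.pi * Complex.I * (((d * m : ℕ) : ℂ) * z) =
      2 * Real.pi * Complex.I * (m * ((d : ℂ) * z)) := by
    push_cast
    ring
  unfold hs
  rw [PowerSeries.coeff_mk, if_pos (dvd_mul_right d m), Nat.mul_div_cancel_left m hd, pow_one,
    div_eq_mul_inv, e]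

private theorem B3_zero (a : ℕ → ℂ) {d n : ℕ} (h : n ∉ Set.range fun m : ℕ => d * m) :
    PowerSeries.coeff n (hs a d) = 0 := by
  unfold hs
  rw [PowerSeries.coeff_mk, if_neg]
  rintro ⟨m, rfl⟩
  exact h ⟨m, rfl⟩

private theorem B3_ev (a : ℕ → ℂ) {d : ℕ} (hd : 1 ≤ d) (z : ℂ) :
    ev (hs a d) z = H6V.EE a 1 ((d : ℂ) * z) := by
  unfold ev H6V.EE
  rw [← (B3_inj hd).tsum_eq (f := fun n : ℕ => PowerSeries.coeff n (hs a d) *
    Complex.exp (2 * Real.pi * Complex.I * (n * z)))]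
  · exact tsum_congr fun m => B3_term a hd z m
  · intro n hn
    by_contra hc
    apply hn
    show PowerSeries.coeff n (hs a d) * _ = 0
    rw [B3_zero a hc, zero_mul]

private theorem B3_im {d : ℕ} (hd : 1 ≤ d) {z : ℂ} (hz : 0 < z.im) : 0 < ((d : ℂ) * z).im := by
  have h : (0 : ℝ) < d := by exact_mod_cast hd
  simp
  positivity

theorem Cv_hs (a : ℕ → ℂ) (C : ℝ) (K : ℕ) (ha : ∀ n, ‖a n‖ ≤ C * ((n : ℝ) + 1) ^ K) (d : ℕ)
    (hd : 1 ≤ d) : Cv (hs a d) := by
  intro z hz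
  rw [← (B3_inj hd).summable_iff]
  · refine (H6V.EE_summable a C K ha 1 (B3_im hd hz)).congr fun m => ?_
    exact congrArg _ (B3_term a hd z m).symm
  · intro n hn
    rw [B3_zero a hn, zero_mul, norm_zero]

theorem hs_deriv (a : ℕ → ℂ) (C : ℝ) (K : ℕ) (ha : ∀ n, ‖a n‖ ≤ C * ((n : ℝ) + 1) ^ K)
    (h0 : a 0 = 0) (d : ℕ) (hd : 1 ≤ d) {z : ℂ} (hz : z ∈ HH) :
    HasDerivAt (ev (hs a d))
      (2 * Real.pi * Complex.I * (d : ℂ) * ev (PowerSeries.mk a) (d * z)) z := by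
  have hz' : 0 < z.im := hz
  have e : ev (hs a d) = H6V.EE a 1 ∘ fun z => (d : ℂ) * z := funext fun z => B3_ev a hd z
  have e0 : H6V.EE a 0 ((d : ℂ) * z) = ev (PowerSeries.mk a) (d * z) := by
    unfold H6V.EE ev
    refine tsum_congr fun n => ?_
    rw [PowerSeries.coeff_mk, pow_zero, inv_one, mul_one]
  have h := H6V.EE_deriv a C K ha h0 0 (B3_im hd hz')
  have h2 : HasDerivAt (fun z : ℂ => (d : ℂ) * z) ((d : ℂ) * 1) z :=
    (hasDerivAt_id z).const_mul (d : ℂ)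
  have h3 := h.comp z h2
  rw [e0] at h3
  rw [e]
  have e1 : 2 * Real.pi * Complex.I * (d : ℂ) * ev (PowerSeries.mk a) (d * z) =
      2 * Real.pi * Complex.I * ev (PowerSeries.mk a) (d * z) * ((d : ℂ) * 1) := by ring
  rw [e1]
  exact h3

end H65Z
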