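import Pool.Agent.Lib.H65Z.M2
import Pool.Agent.Lib.H6V.X1
import Pool.Agent.Lib.H53M.KMF

/-!
# H65Z, chunk B1 (M): growth of a form of weight `k + 2` near the real line

PROOF. `Cv_mk`: `EE_summable a C K ha 0` (Lib/H6V/X1.lean), `H53M.Cv`. `ev_poly`, `y = Im z`: the term `n` has norm `≤ C (n+1)^K e^(-2πny)`; for `n ≥ 1` `e^(-2πny) ≤ (K+2)!/(2πny)^(K+2)`
(`Real.pow_div_factorial_le_exp` for `x = 2πny ≥ 0`) and `(n+1)^K ≤ 2^K n^K`, so the term is `≤ C 2^K (K+2)! y^(-(K+2)) n^(-2)` (`2π ≥ 1`); the term `n = 0` is `≤ C`; so for every `n`: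
`≤ A (1 + y⁻¹)^(K+2) /(n+1)^2` with a constant `A` (`n^(-2) ≤ 4 (n+1)^(-2)`). Sum: `tsum_of_norm_bounded` / `norm_tsum_le_tsum_norm`, `Summable.tsum_le_tsum`, `C' = A Σ 1/(n+1)^2`.
`EG_sl_ev`: `u z = c * ev (mk a) (d * z)` is holomorphic on `HH` (`KMF_diff`, Lib/H53M/KMF.lean), `mo γ` and `(jo γ)⁻¹` too. For `Im z ≥ δ`: `Im (d mo γ z) = d Im z / ‖jo γ z‖^2` (`im_mo`), so its inverse is
`≤ ‖jo γ z‖^2/δ ≤ A² (1 + ‖z‖)^2/δ`, where `A = |c| + |d|` (the lower row); `‖jo γ z‖⁻¹ ≤ max 1 (1/δ)` (as in `EG_inv_jo`, or use `EG_inv_jo`, `EG.pow`, `EG.mul`, and only bound the factor `u (mo γ z)`).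
-/

open scoped MatrixGroups

namespace H65Z

open H53M

theorem Cv_mk (a : ℕ → ℂ) (C : ℝ) (K : ℕ) (ha : ∀ n, ‖a n‖ ≤ C * ((n : ℝ) + 1) ^ K) :
    Cv (PowerSeries.mk a) := by
  intro z hz
  refine (H6V.EE_summable a C K ha 0 hz).congr fun n => ?_
  rw [PowerSeries.coeff_mk, pow_zero, inv_one, mul_one]

private theorem B1_pow (m n : ℕ) {y : ℝ} (hy : 0 < y) :
    ((n : ℝ) + 1) ^ m * Real.exp (-(2 * Real.pi * (n * y))) ≤
      2 ^ m * (m.factorial : ℝ) * (1 + y⁻¹) ^ m := by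
  have hf : (1 : ℝ) ≤ (m.factorial : ℝ) := by exact_mod_cast Nat.one_le_iff_ne_zero.2 m.factorial_ne_zero
  have hy' : 0 < y⁻¹ := inv_pos.2 hy
  have h1 : (1 : ℝ) ≤ (1 + y⁻¹) ^ m := one_le_pow₀ (by linarith)
  have h2 : (1 : ℝ) ≤ 2 ^ m := one_le_pow₀ (by norm_num)
  rcases Nat.eq_zero_or_pos n with rfl | hn
  · have h3 : (1 : ℝ) ≤ 2 ^ m * (m.factorial : ℝ) := one_le_mul_of_one_le_of_one_le h2 hf
    have h4 : (1 : ℝ) ≤ 2 ^ m * (m.factorial : ℝ) * (1 + y⁻¹) ^ m :=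
      one_le_mul_of_one_le_of_one_le h3 h1
    simpa using h4
  · have hn1 : (1 : ℝ) ≤ (n : ℝ) := by exact_mod_cast hn
    have hx : 0 ≤ (n : ℝ) * y := by positivity
    have h3 := Real.pow_div_factorial_le_exp _ hx m
    have hfp : (0 : ℝ) < (m.factorial : ℝ) := by linarith
    have h4 : ((n : ℝ) * y) ^ m ≤ (m.factorial : ℝ) * Real.exp ((n : ℝ) * y) := by
      rw [div_le_iff₀ hfp] at h3
      linarith
    have h5 : ((n : ℝ) + 1) ^ m ≤ 2 ^ m * (n : ℝ) ^ m := by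
      rw [← mul_pow]
      exact pow_le_pow_left₀ (by positivity) (by linarith) m
    have h6 : (n : ℝ) ^ m = ((n : ℝ) * y) ^ m * (y⁻¹) ^ m := by
      rw [← mul_pow, mul_assoc, mul_inv_cancel₀ hy.ne', mul_one]
    have h7 : Real.exp ((n : ℝ) * y) * Real.exp (-(2 * Real.pi * (n * y))) ≤ 1 := by
      rw [← Real.exp_add, Real.exp_le_one_iff]
      have h8 : (1 : ℝ) ≤ 2 * Real.pi := by
        have := Real.pi_gt_three
        linarith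
      nlinarith
    have h9 : (y⁻¹) ^ m ≤ (1 + y⁻¹) ^ m := pow_le_pow_left₀ hy'.le (by linarith) m
    have he := (Real.exp_pos (-(2 * Real.pi * (n * y)))).le
    calc ((n : ℝ) + 1) ^ m * Real.exp (-(2 * Real.pi * (n * y)))
        ≤ (2 ^ m * (n : ℝ) ^ m) * Real.exp (-(2 * Real.pi * (n * y))) :=
          mul_le_mul_of_nonneg_right h5 he
      _ = 2 ^ m * (((n : ℝ) * y) ^ m * (y⁻¹) ^ m) * Real.exp (-(2 * Real.pi * (n * y))) := by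
          rw [← h6]
      _ ≤ 2 ^ m * (((m.factorial : ℝ) * Real.exp ((n : ℝ) * y)) * (y⁻¹) ^ m) *
            Real.exp (-(2 * Real.pi * (n * y))) := by
          refine mul_le_mul_of_nonneg_right (mul_le_mul_of_nonneg_left
            (mul_le_mul_of_nonneg_right h4 (by positivity)) (by positivity)) he
      _ = 2 ^ m * (m.factorial : ℝ) * (y⁻¹) ^ m *
            (Real.exp ((n : ℝ) * y) * Real.exp (-(2 * Real.pi * (n * y)))) := by ring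
      _ ≤ 2 ^ m * (m.factorial : ℝ) * (y⁻¹) ^ m * 1 :=
          mul_le_mul_of_nonneg_left h7 (by positivity)
      _ = 2 ^ m * (m.factorial : ℝ) * (y⁻¹) ^ m := mul_one _
      _ ≤ 2 ^ m * (m.factorial : ℝ) * (1 + y⁻¹) ^ m :=
          mul_le_mul_of_nonneg_left h9 (by positivity)

theorem ev_poly (a : ℕ → ℂ) (C : ℝ) (K : ℕ) (ha : ∀ n, ‖a n‖ ≤ C * ((n : ℝ) + 1) ^ K) :
    ∃ C' : ℝ, 0 ≤ C' ∧ ∀ z ∈ HH, ‖ev (PowerSeries.mk a) z‖ ≤ C' * (1 + (z.im)⁻¹) ^ (K + 2) := by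
  have hC : 0 ≤ C := by
    have h := (norm_nonneg _).trans (ha 0)
    simpa using h
  have hs : Summable fun n : ℕ => 1 / (((n : ℝ) + 1) ^ 2) := by
    have h := (summable_nat_add_iff 1).2 (Real.summable_one_div_nat_pow.2 (le_refl 2))
    refine h.congr fun n => ?_
    push_cast
    rfl
  set Sg : ℝ := ∑' n : ℕ, 1 / (((n : ℝ) + 1) ^ 2) with hSg
  have hSg0 : 0 ≤ Sg := tsum_nonneg fun n => by positivity
  refine ⟨C * (2 ^ (K + 2) * ((K + 2).factorial : ℝ)) * Sg, by positivity, fun z hz => ?_⟩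
  have hy : 0 < z.im := hz
  set B : ℝ := C * (2 ^ (K + 2) * ((K + 2).factorial : ℝ) * (1 + (z.im)⁻¹) ^ (K + 2)) with hB
  have h1 : HasSum (fun n : ℕ => B * (1 / (((n : ℝ) + 1) ^ 2))) (B * Sg) := hs.hasSum.mul_left B
  have h2 : ‖ev (PowerSeries.mk a) z‖ ≤ B * Sg := by
    unfold ev
    refine tsum_of_norm_bounded h1 fun n => ?_
    rw [KMF_norm, PowerSeries.coeff_mk]
    have h3 := B1_pow (K + 2) n hy
    have h4 : (0 : ℝ) < ((n : ℝ) + 1) ^ 2 := by positivity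
    have he := (Real.exp_pos (-(2 * Real.pi * (n * z.im)))).le
    have h5 : ‖a n‖ * Real.exp (-(2 * Real.pi * (n * z.im))) ≤
        C * ((n : ℝ) + 1) ^ K * Real.exp (-(2 * Real.pi * (n * z.im))) :=
      mul_le_mul_of_nonneg_right (ha n) he
    refine h5.trans ?_
    rw [mul_one_div, le_div_iff₀ h4, hB]
    calc C * ((n : ℝ) + 1) ^ K * Real.exp (-(2 * Real.pi * (n * z.im))) * ((n : ℝ) + 1) ^ 2
        = C * (((n : ℝ) + 1) ^ (K + 2) * Real.exp (-(2 * Real.pi * (n * z.im)))) := by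
          rw [pow_add]
          ring
      _ ≤ C * (2 ^ (K + 2) * ((K + 2).factorial : ℝ) * (1 + (z.im)⁻¹) ^ (K + 2)) :=
          mul_le_mul_of_nonneg_left h3 hC
  refine h2.trans (le_of_eq ?_)
  rw [hB]
  ring

private theorem B1_jo (γ : SL(2, ℤ)) (z : ℂ) :
    ‖jo γ z‖ ≤ (‖((γ 1 0 : ℤ) : ℂ)‖ + ‖((γ 1 1 : ℤ) : ℂ)‖) * (1 + ‖z‖) := by
  unfold jo
  have h1 : ‖((γ 1 0 : ℤ) : ℂ) * z + ((γ 1 1 : ℤ) : ℂ)‖ ≤
      ‖((γ 1 0 : ℤ) : ℂ)‖ * ‖z‖ + ‖((γ 1 1 : ℤ) : ℂ)‖ := by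
    refine (norm_add_le _ _).trans ?_
    rw [norm_mul]
  have h2 := norm_nonneg ((γ 1 0 : ℤ) : ℂ)
  have h3 := norm_nonneg ((γ 1 1 : ℤ) : ℂ)
  have h4 := norm_nonneg z
  have h5 : 0 ≤ ‖((γ 1 1 : ℤ) : ℂ)‖ * ‖z‖ := mul_nonneg h3 h4
  linarith

private theorem B1_comp (γ : SL(2, ℤ)) (a : ℕ → ℂ) (C : ℝ) (K : ℕ)
    (ha : ∀ n, ‖a n‖ ≤ C * ((n : ℝ) + 1) ^ K) (d : ℕ) (hd : 1 ≤ d) :
    EG 0 (fun z => ev (PowerSeries.mk a) (d * mo γ z)) := by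
  have hd0 : (0 : ℝ) < (d : ℝ) := by exact_mod_cast hd
  have him : ∀ z ∈ HH, ((d : ℂ) * mo γ z).im = (d : ℝ) * (z.im / ‖jo γ z‖ ^ 2) := by
    intro z hz
    rw [← im_mo γ hz]
    simp
  have hmem : ∀ z ∈ HH, (d : ℂ) * mo γ z ∈ HH := by
    intro z hz
    show 0 < ((d : ℂ) * mo γ z).im
    rw [him z hz]
    have h1 : 0 < ‖jo γ z‖ := norm_pos_iff.2 (jo_ne γ hz)
    have h2 : 0 < z.im := hz
    positivity
  refine ⟨?_, fun δ hδ => ?_⟩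
  · have h1 : DifferentiableOn ℂ (ev (PowerSeries.mk a)) HH := KMF_diff _ (Cv_mk a C K ha)
    have h2 : DifferentiableOn ℂ (fun z => (d : ℂ) * mo γ z) HH := by
      intro z hz
      exact ((hasDerivAt_mo γ hz).differentiableAt.const_mul (d : ℂ)).differentiableWithinAt
    exact h1.comp h2 hmem
  · obtain ⟨C', hC', hev⟩ := ev_poly a C K ha
    set B : ℝ := ‖((γ 1 0 : ℤ) : ℂ)‖ + ‖((γ 1 1 : ℤ) : ℂ)‖ with hB
    refine ⟨C' * (1 + B ^ 2 / δ) ^ (K + 2), 2 * (K + 2), fun z hz => ?_⟩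
    have hzH : z ∈ HH := lt_of_lt_of_le hδ hz
    have hz0 : 0 < z.im := hzH
    have h1 := hev _ (hmem z hzH)
    have hj : 0 < ‖jo γ z‖ := norm_pos_iff.2 (jo_ne γ hzH)
    have hn := norm_nonneg z
    have h2 : (((d : ℂ) * mo γ z).im)⁻¹ ≤ B ^ 2 / δ * (1 + ‖z‖) ^ 2 := by
      rw [him z hzH]
      have h3 : ((d : ℝ) * (z.im / ‖jo γ z‖ ^ 2))⁻¹ = ‖jo γ z‖ ^ 2 / ((d : ℝ) * z.im) := by
        field_simp
      rw [h3]
      have h4 : ‖jo γ z‖ ^ 2 ≤ (B * (1 + ‖z‖)) ^ 2 :=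
        pow_le_pow_left₀ hj.le (B1_jo γ z) 2
      have h5 : δ ≤ (d : ℝ) * z.im := by
        have h6 : (1 : ℝ) ≤ (d : ℝ) := by exact_mod_cast hd
        nlinarith
      calc ‖jo γ z‖ ^ 2 / ((d : ℝ) * z.im) ≤ (B * (1 + ‖z‖)) ^ 2 / δ :=
            div_le_div₀ (by positivity) h4 hδ h5
        _ = B ^ 2 / δ * (1 + ‖z‖) ^ 2 := by ring
    have h7 : (1 : ℝ) ≤ (1 + ‖z‖) ^ 2 := one_le_pow₀ (by linarith)
    have h8 : 1 + (((d : ℂ) * mo γ z).im)⁻¹ ≤ (1 + B ^ 2 / δ) * (1 + ‖z‖) ^ 2 := by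
      linarith
    have h9 : 0 ≤ 1 + (((d : ℂ) * mo γ z).im)⁻¹ := by
      have h10 : 0 < (((d : ℂ) * mo γ z).im)⁻¹ := inv_pos.2 (hmem z hzH)
      linarith
    have h11 := pow_le_pow_left₀ h9 h8 (K + 2)
    have h12 : ‖ev (PowerSeries.mk a) (d * mo γ z)‖ ≤
        C' * (1 + B ^ 2 / δ) ^ (K + 2) * (1 + ‖z‖) ^ (2 * (K + 2)) := by
      refine h1.trans ((mul_le_mul_of_nonneg_left h11 hC').trans (le_of_eq ?_))
      rw [mul_pow, ← pow_mul, mul_assoc]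
    simpa using h12

theorem EG_sl_ev (w : ℕ) (γ : SL(2, ℤ)) (a : ℕ → ℂ) (C : ℝ) (K : ℕ)
    (ha : ∀ n, ‖a n‖ ≤ C * ((n : ℝ) + 1) ^ K) (d : ℕ) (hd : 1 ≤ d) (c : ℂ) :
    EG 0 (sl w γ fun z => c * ev (PowerSeries.mk a) (d * z)) := by
  have h1 := ((EG_inv_jo γ).pow w).mul ((B1_comp γ a C K ha d hd).smul c)
  rw [mul_zero, add_zero] at h1
  refine h1.congr fun z _ => ?_
  unfold sl
  rw [inv_pow]

end H65Z
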