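import Pool.Agent.Lib.H65Z.B1

/-!
# H65Z, chunk B2 (M): the stable family

PROOF. `fs s z = 2πi d_s ev (mk a) (d_s z)`, `w = k + 2`, `M = N * ∏ s, d s` (`≠ 0`). (1) If `γ 1 0 ≡ 0`, `γ 1 1 ≡ 1` mod `M` then `sl w γ (fs s) z = fs s z` on `HH`: with `γ = (A B; C D)`, `C = d_s C'`, `N ∣ C'`, `N ∣ D - 1`:
`d_s mo γ z = (A (d_s z) + d_s B)/(C' (d_s z) + D)`, `ha.trans A (d_s B) C' D` at `d_s z` (`Im > 0`), `C' (d_s z) + D = jo γ z`. (2) `ι = Fin r × (Fin 2 → Fin 2 → ZMod M)`;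
`red γ = fun i j => ((γ i j : ℤ) : ZMod M)`; `rep c = if h : ∃ γ, red γ = c then h.choose else 1`; `g (s, c) = sl w (rep c) (fs s)`; `i s = (s, red 1)`. If `red γ = red γ₀` then `γ γ₀⁻¹` has lower row
`(c d₀ - d c₀, -c b₀ + d a₀) ≡ (0, 1)` mod `M` (`Matrix.SpecialLinearGroup.SL2_inv_expl`), so `sl w γ (fs s) = sl w γ₀ (sl w (γ γ₀⁻¹) (fs s)) = sl w γ₀ (fs s)` on `HH` (`sl_mul`; `sl` of functions which agree on `HH` agree on `HH`, `mo_mem`).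
Stable: `g (s, c) (mo δ z) = jo δ z ^ w * sl w δ (g (s, c)) z` (`jo_ne`) `= jo δ z ^ w * sl w (rep c * δ) (fs s) z = jo δ z ^ w * g (s, red (rep c * δ)) z`. Growth: `EG_sl_ev`. `g (s, red 1) = fs s`: as above with `γ = 1`, `sl_one`.
-/

open scoped MatrixGroups

namespace H65Z

open H53M

/-- The function `2 π i d f(d z)`. -/
private noncomputable def B2_f (a : ℕ → ℂ) (d : ℕ) (z : ℂ) : ℂ :=
  2 * Real.pi * Complex.I * (d : ℂ) * ev (PowerSeries.mk a) (d * z)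

private def B2_red (M : ℕ) (γ : SL(2, ℤ)) : Fin 2 → Fin 2 → ZMod M :=
  fun i j => ((γ i j : ℤ) : ZMod M)

open Classical in
private noncomputable def B2_rep (M : ℕ) (c : Fin 2 → Fin 2 → ZMod M) : SL(2, ℤ) :=
  if h : ∃ γ, B2_red M γ = c then h.choose else 1

private theorem B2_red_rep (M : ℕ) (γ : SL(2, ℤ)) :
    B2_red M (B2_rep M (B2_red M γ)) = B2_red M γ := by
  have h : ∃ γ', B2_red M γ' = B2_red M γ := ⟨γ, rfl⟩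
  unfold B2_rep
  rw [dif_pos h]
  exact h.choose_spec

/-- Invariance. -/
private theorem B2_inv {k N : ℕ} {a : ℕ → ℂ} (ha : CF N k a) (d e : ℕ) (hd : 1 ≤ d)
    (γ : SL(2, ℤ)) (h0 : ((N * (d * e) : ℕ) : ℤ) ∣ γ 1 0)
    (h1 : ((N * (d * e) : ℕ) : ℤ) ∣ γ 1 1 - 1) {z : ℂ} (hz : z ∈ HH) :
    sl (k + 2) γ (B2_f a d) z = B2_f a d z := by
  have hz' : 0 < z.im := hz
  obtain ⟨t, ht⟩ := h0
  have hdet : (γ 0 0 : ℤ) * (γ 1 1 : ℤ) - (γ 0 1 : ℤ) * (γ 1 0 : ℤ) = 1 := by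
    have h := Matrix.SpecialLinearGroup.det_coe γ
    rw [Matrix.det_fin_two] at h
    exact h
  have hC : (γ 1 0 : ℤ) = (d : ℤ) * ((N : ℤ) * e * t) := by
    rw [ht]
    push_cast
    ring
  have hdz : 0 < ((d : ℂ) * z).im := by
    have h2 : ((d : ℂ) * z).im = (d : ℝ) * z.im := by simp
    rw [h2]
    have h3 : (0 : ℝ) < d := by exact_mod_cast hd
    positivity
  have htr := ha.trans (γ 0 0) ((d : ℤ) * γ 0 1) ((N : ℤ) * e * t) (γ 1 1)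
    (by linear_combination hdet + (γ 0 1 : ℤ) * hC) ⟨(e : ℤ) * t, by ring⟩
    (by
      have h2 : ((N : ℕ) : ℤ) ∣ ((N * (d * e) : ℕ) : ℤ) := by
        push_cast
        exact Dvd.intro _ rfl
      exact h2.trans h1) ((d : ℂ) * z) hdz
  have hjo : (((N : ℤ) * e * t : ℤ) : ℂ) * ((d : ℂ) * z) + ((γ 1 1 : ℤ) : ℂ) = jo γ z := by
    unfold jo
    rw [hC]
    push_cast
    ring
  have hnum : ((γ 0 0 : ℤ) : ℂ) * ((d : ℂ) * z) + (((d : ℤ) * γ 0 1 : ℤ) : ℂ) =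
      (d : ℂ) * (((γ 0 0 : ℤ) : ℂ) * z + ((γ 0 1 : ℤ) : ℂ)) := by
    push_cast
    ring
  rw [hjo, hnum, mul_div_assoc] at htr
  have hmo : (((γ 0 0 : ℤ) : ℂ) * z + ((γ 0 1 : ℤ) : ℂ)) / jo γ z = mo γ z := rfl
  rw [hmo] at htr
  have hj : jo γ z ^ (k + 2) ≠ 0 := pow_ne_zero _ (jo_ne γ hz)
  unfold sl B2_f
  rw [htr]
  field_simp

/-- The translate only depends on the class modulo `M`. -/
private theorem B2_class {k N : ℕ} {a : ℕ → ℂ} (ha : CF N k a) (d e : ℕ) (hd : 1 ≤ d)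
    (γ γ₀ : SL(2, ℤ)) (h : B2_red (N * (d * e)) γ = B2_red (N * (d * e)) γ₀) {z : ℂ}
    (hz : z ∈ HH) : sl (k + 2) γ (B2_f a d) z = sl (k + 2) γ₀ (B2_f a d) z := by
  have hc : ((γ 1 0 : ℤ) : ZMod (N * (d * e))) = ((γ₀ 1 0 : ℤ) : ZMod (N * (d * e))) :=
    congrFun (congrFun h 1) 0
  have hdd : ((γ 1 1 : ℤ) : ZMod (N * (d * e))) = ((γ₀ 1 1 : ℤ) : ZMod (N * (d * e))) :=
    congrFun (congrFun h 1) 1
  have hdet : (γ₀ 0 0 : ℤ) * (γ₀ 1 1 : ℤ) - (γ₀ 0 1 : ℤ) * (γ₀ 1 0 : ℤ) = 1 := by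
    have h := Matrix.SpecialLinearGroup.det_coe γ₀
    rw [Matrix.det_fin_two] at h
    exact h
  have hdetM : ((γ₀ 0 0 : ℤ) : ZMod (N * (d * e))) * ((γ₀ 1 1 : ℤ) : ZMod (N * (d * e))) -
      ((γ₀ 0 1 : ℤ) : ZMod (N * (d * e))) * ((γ₀ 1 0 : ℤ) : ZMod (N * (d * e))) = 1 := by
    exact_mod_cast congrArg (Int.cast : ℤ → ZMod (N * (d * e))) hdet
  have hi : ∀ i j, (γ * γ₀⁻¹) i j = γ i 0 * γ₀⁻¹ 0 j + γ i 1 * γ₀⁻¹ 1 j := by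
    intro i j
    rw [Matrix.SpecialLinearGroup.coe_mul, Matrix.mul_apply, Fin.sum_univ_two]
  have e10 : (γ * γ₀⁻¹) 1 0 = γ 1 0 * γ₀ 1 1 - γ 1 1 * γ₀ 1 0 := by
    rw [hi, Matrix.SpecialLinearGroup.SL2_inv_expl]
    simp
    ring
  have e11 : (γ * γ₀⁻¹) 1 1 = γ 1 1 * γ₀ 0 0 - γ 1 0 * γ₀ 0 1 := by
    rw [hi, Matrix.SpecialLinearGroup.SL2_inv_expl]
    simp
    ring
  have h0 : ((N * (d * e) : ℕ) : ℤ) ∣ (γ * γ₀⁻¹) 1 0 := by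
    rw [← ZMod.intCast_zmod_eq_zero_iff_dvd, e10]
    push_cast
    rw [hc, hdd]
    ring
  have h1 : ((N * (d * e) : ℕ) : ℤ) ∣ (γ * γ₀⁻¹) 1 1 - 1 := by
    rw [← ZMod.intCast_zmod_eq_zero_iff_dvd, e11]
    push_cast
    rw [hc, hdd]
    linear_combination hdetM
  have h2 : γ = γ * γ₀⁻¹ * γ₀ := by rw [inv_mul_cancel_right]
  conv_lhs => rw [h2]
  rw [sl_mul _ _ _ _ hz]
  have h3 := B2_inv ha d e hd (γ * γ₀⁻¹) h0 h1 (mo_mem γ₀ hz)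
  show (jo γ₀ z ^ (k + 2))⁻¹ * sl (k + 2) (γ * γ₀⁻¹) (B2_f a d) (mo γ₀ z) =
    (jo γ₀ z ^ (k + 2))⁻¹ * B2_f a d (mo γ₀ z)
  rw [h3]

theorem fam_of {r k N : ℕ} (hN : N ≠ 0) {a : ℕ → ℂ} (ha : CF N k a) (d : Fin r → ℕ)
    (hd : ∀ s, 1 ≤ d s) :
    ∃ (ι : Type) (_ : Fintype ι) (g : ι → ℂ → ℂ) (i : Fin r → ι), Fam k g ∧
      ∀ s, ∀ z ∈ HH, g (i s) z =
        2 * Real.pi * Complex.I * (d s : ℂ) * ev (PowerSeries.mk a) (d s * z) := by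
  classical
  obtain ⟨M, hM⟩ : ∃ M : ℕ, M = N * ∏ s, d s := ⟨_, rfl⟩
  have hM0 : M ≠ 0 := by
    rw [hM]
    exact mul_ne_zero hN (Finset.prod_ne_zero_iff.2 fun s _ => by
      have := hd s
      omega)
  have : NeZero M := ⟨hM0⟩
  have hclass : ∀ (s : Fin r) (γ γ₀ : SL(2, ℤ)), B2_red M γ = B2_red M γ₀ → ∀ z ∈ HH,
      sl (k + 2) γ (B2_f a (d s)) z = sl (k + 2) γ₀ (B2_f a (d s)) z := by
    intro s γ γ₀ h z hz
    have h1 : M = N * (d s * ∏ t ∈ Finset.univ.erase s, d t) := by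
      rw [hM, Finset.mul_prod_erase _ _ (Finset.mem_univ s)]
    rw [h1] at h
    exact B2_class ha (d s) _ (hd s) γ γ₀ h hz
  refine ⟨Fin r × (Fin 2 → Fin 2 → ZMod M), inferInstance,
    fun x => sl (k + 2) (B2_rep M x.2) (B2_f a (d x.1)), fun s => (s, B2_red M 1), ⟨?_, ?_⟩, ?_⟩
  · rintro ⟨s, c⟩
    obtain ⟨C, K, hg⟩ := ha.growth
    exact EG_sl_ev (k + 2) (B2_rep M c) a C K hg (d s) (hd s) (2 * Real.pi * Complex.I * (d s : ℂ))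
  · rintro ⟨s, c⟩ δ
    refine ⟨(s, B2_red M (B2_rep M c * δ)), fun z hz => ?_⟩
    show sl (k + 2) (B2_rep M c) (B2_f a (d s)) (mo δ z) =
      jo δ z ^ (k + 2) * sl (k + 2) (B2_rep M (B2_red M (B2_rep M c * δ))) (B2_f a (d s)) z
    rw [hclass s _ _ (B2_red_rep M (B2_rep M c * δ)) z hz, sl_mul _ _ _ _ hz]
    have hj : jo δ z ^ (k + 2) ≠ 0 := pow_ne_zero _ (jo_ne δ hz)
    show _ = jo δ z ^ (k + 2) * ((jo δ z ^ (k + 2))⁻¹ *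
      sl (k + 2) (B2_rep M c) (B2_f a (d s)) (mo δ z))
    rw [mul_inv_cancel_left₀ hj]
  · intro s z hz
    show sl (k + 2) (B2_rep M (B2_red M 1)) (B2_f a (d s)) z = B2_f a (d s) z
    rw [hclass s _ _ (B2_red_rep M 1) z hz, sl_one]

end H65Z
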