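import Pool.Agent.Lib.H65Z.Defs
import Pool.Agent.Lib.H53M.KMF
import Pool.Agent.Lib.H53M.KEV

/-!
# H65Z, chunk B4 (S/M): the functions `ev f`

PROOF. `EG_ev`: differentiable: `KMF_diff`. For `Im z ≥ δ > 0`: the term `n` is `0` for `n < N` and for `n ≥ N` its norm is `‖coeff n f‖ e^(-2πn Im z) ≤ ‖coeff n f‖ e^(-2πnδ) e^(-2πN(Im z - δ))`;
the sum over `n` of `‖coeff n f‖ e^(-2πnδ)` converges (`Cv` at the point `δ i`); `C = e^(2πNδ) Σ ..`, `M = 0`.
`ev_ne`: let `n₀` be the order of `f`, `c = coeff n₀ f ≠ 0`. `f = X^n₀ g` with `coeff 0 g = c`; suppose `ev f z = 0` on `HH`. `‖ev f z - c e(n₀ z)‖ ≤ Σ_{n > n₀} ‖coeff n f‖ e^(-2πny)`, for `y = Im z ≥ 1` this is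
`≤ e^(-2π(n₀+1)(y-1)) S`, `S = Σ ‖coeff n f‖ e^(-2πn)` (`EG_ev` for `f - c X^n₀` with `N = n₀ + 1` gives the same, on the line `z = iy` use the bound with a factor `(1+y)^M`). So `‖c‖ e^(-2πn₀y) ≤ S' (1+y)^M e^(-2π(n₀+1)y)`, i.e. `‖c‖ ≤ S' (1+y)^M e^(-2πy) → 0`
for `y → ∞`, a contradiction. (Or: `ev f z = p(e(z))` with the analytic function `p(q) = Σ coeff n f q^n` on the unit disc, zero on the punctured disc, so all coefficients vanish, `HasFPowerSeriesOnBall` uniqueness.)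
-/

namespace H65Z

open H53M

private theorem b4_bound {N : ℕ} {f : PowerSeries ℂ} (hf : Cv f)
    (h0 : ∀ n < N, PowerSeries.coeff n f = 0) (δ : ℝ) (hδ : 0 < δ) :
    ∃ C : ℝ, ∀ z : ℂ, δ ≤ z.im → ‖ev f z‖ ≤ C * Real.exp (-(2 * Real.pi * N * z.im)) := by
  have hI : (((δ : ℝ) : ℂ) * Complex.I).im = δ := by simp
  have hs : Summable fun n : ℕ =>
      ‖PowerSeries.coeff n f‖ * Real.exp (-(2 * Real.pi * (n * δ))) := by
    have h1 := hf (((δ : ℝ) : ℂ) * Complex.I) (by rw [hI]; exact hδ)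
    refine h1.congr fun n => ?_
    rw [KMF_norm, hI]
  refine ⟨(∑' n : ℕ, ‖PowerSeries.coeff n f‖ * Real.exp (-(2 * Real.pi * (n * δ)))) *
    Real.exp (2 * Real.pi * N * δ), fun z hz => ?_⟩
  have hz0 : 0 < z.im := hδ.trans_le hz
  have hterm : ∀ n : ℕ, ‖PowerSeries.coeff n f * Complex.exp (2 * Real.pi * Complex.I * (n * z))‖ ≤
      (‖PowerSeries.coeff n f‖ * Real.exp (-(2 * Real.pi * (n * δ)))) *
        Real.exp (-(2 * Real.pi * N * (z.im - δ))) := by
    intro n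
    rw [KMF_norm]
    by_cases hn : n < N
    · rw [h0 n hn, norm_zero, zero_mul, zero_mul, zero_mul]
    · rw [mul_assoc ‖PowerSeries.coeff n f‖, ← Real.exp_add]
      refine mul_le_mul_of_nonneg_left (Real.exp_le_exp.2 ?_) (norm_nonneg _)
      have hn' : (N : ℝ) ≤ n := by exact_mod_cast not_lt.1 hn
      have h2 : (N : ℝ) * (z.im - δ) ≤ n * (z.im - δ) :=
        mul_le_mul_of_nonneg_right hn' (sub_nonneg.2 hz)
      have hpi := Real.pi_pos
      nlinarith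
  calc ‖ev f z‖ ≤ ∑' n : ℕ,
        ‖PowerSeries.coeff n f * Complex.exp (2 * Real.pi * Complex.I * (n * z))‖ :=
        norm_tsum_le_tsum_norm (hf z hz0)
    _ ≤ ∑' n : ℕ, (‖PowerSeries.coeff n f‖ * Real.exp (-(2 * Real.pi * (n * δ)))) *
        Real.exp (-(2 * Real.pi * N * (z.im - δ))) :=
        (hf z hz0).tsum_le_tsum hterm (hs.mul_right _)
    _ = (∑' n : ℕ, ‖PowerSeries.coeff n f‖ * Real.exp (-(2 * Real.pi * (n * δ)))) *
        Real.exp (-(2 * Real.pi * N * (z.im - δ))) := tsum_mul_right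
    _ = _ := by
        rw [mul_assoc (∑' n : ℕ, ‖PowerSeries.coeff n f‖ * Real.exp (-(2 * Real.pi * (n * δ)))),
          ← Real.exp_add]
        congr 2
        ring

theorem EG_ev {N : ℕ} {f : PowerSeries ℂ} (hf : Cv f) (h0 : ∀ n < N, PowerSeries.coeff n f = 0) :
    EG N (ev f) := by
  refine ⟨KMF_diff f hf, fun δ hδ => ?_⟩
  obtain ⟨C, hC⟩ := b4_bound hf h0 δ hδ
  refine ⟨C, 0, fun z hz => ?_⟩
  rw [pow_zero, mul_one]
  exact hC z hz

private theorem b4_mono (n₀ : ℕ) (c : ℂ) : Cv (PowerSeries.monomial n₀ c) ∧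
    ∀ z : ℂ, ev (PowerSeries.monomial n₀ c) z =
      c * Complex.exp (2 * Real.pi * Complex.I * (n₀ * z)) := by
  have h1 : ∀ (z : ℂ) (n : ℕ), n ≠ n₀ → PowerSeries.coeff n (PowerSeries.monomial n₀ c) *
      Complex.exp (2 * Real.pi * Complex.I * (n * z)) = 0 := by
    intro z n hn
    rw [PowerSeries.coeff_monomial, if_neg hn, zero_mul]
  constructor
  · intro z hz
    refine summable_of_ne_finset_zero (s := {n₀}) fun n hn => ?_
    rw [h1 z n (by simpa using hn), norm_zero]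
  · intro z
    unfold ev
    rw [tsum_eq_single n₀ (h1 z), PowerSeries.coeff_monomial, if_pos rfl]

theorem ev_ne {f : PowerSeries ℂ} (hf : Cv f) (h : f ≠ 0) : ∃ z ∈ HH, ev f z ≠ 0 := by
  classical
  by_contra hcon
  push Not at hcon
  have hex : ∃ n, PowerSeries.coeff n f ≠ 0 := by
    by_contra hall
    push Not at hall
    exact h (PowerSeries.ext fun n => by rw [hall n, map_zero])
  obtain ⟨n₀, hn₀, hmin⟩ : ∃ n₀, PowerSeries.coeff n₀ f ≠ 0 ∧
      ∀ n < n₀, PowerSeries.coeff n f = 0 :=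
    ⟨Nat.find hex, Nat.find_spec hex, fun n hn => not_not.1 (Nat.find_min hex hn)⟩
  obtain ⟨c, hc⟩ : ∃ c, c = PowerSeries.coeff n₀ f := ⟨_, rfl⟩
  obtain ⟨hm1, hm2⟩ := b4_mono n₀ c
  obtain ⟨g, hg⟩ : ∃ g, g = f + -PowerSeries.monomial n₀ c := ⟨_, rfl⟩
  have hgC : Cv g := by
    rw [hg]
    exact Cv_add hf (Cv_neg hm1)
  have hg0 : ∀ n < n₀ + 1, PowerSeries.coeff n g = 0 := by
    intro n hn
    rw [hg, map_add, map_neg, PowerSeries.coeff_monomial]
    rcases (Nat.lt_succ_iff.1 hn).eq_or_lt with h1 | h1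
    · rw [if_pos h1, h1, hc, add_neg_cancel]
    · rw [if_neg h1.ne, neg_zero, add_zero]
      exact hmin n h1
  obtain ⟨C, hC⟩ := b4_bound hgC hg0 1 one_pos
  have hkey : ∀ y : ℝ, 1 ≤ y → ‖c‖ ≤ C * Real.exp (-(2 * Real.pi * y)) := by
    intro y hy
    obtain ⟨z, hz⟩ : ∃ z : ℂ, z = (y : ℂ) * Complex.I := ⟨_, rfl⟩
    have hzi : z.im = y := by rw [hz]; simp
    have hz0 : 0 < z.im := by rw [hzi]; linarith
    have h1 : ev g z = -(c * Complex.exp (2 * Real.pi * Complex.I * (n₀ * z))) := by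
      rw [hg, ev_add hf (Cv_neg hm1) hz0, ev_neg hm1 hz0, hm2, hcon z hz0, zero_add]
    have h2 := hC z (by rw [hzi]; exact hy)
    rw [h1, norm_neg] at h2
    have h3 := KMF_norm f n₀ z
    rw [← hc] at h3
    rw [h3, hzi] at h2
    have h4 : Real.exp (-(2 * Real.pi * ((n₀ + 1 : ℕ) : ℝ) * y)) =
        Real.exp (-(2 * Real.pi * (n₀ * y))) * Real.exp (-(2 * Real.pi * y)) := by
      rw [← Real.exp_add]
      congr 1
      push_cast
      ring
    rw [h4] at h2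
    have h5 : 0 < Real.exp (-(2 * Real.pi * (n₀ * y))) := Real.exp_pos _
    have h6 : ‖c‖ * Real.exp (-(2 * Real.pi * (n₀ * y))) ≤
        (C * Real.exp (-(2 * Real.pi * y))) * Real.exp (-(2 * Real.pi * (n₀ * y))) := by
      refine h2.trans (le_of_eq ?_)
      ring
    exact le_of_mul_le_mul_right h6 h5
  have hlim : Filter.Tendsto (fun y : ℝ => C * Real.exp (-(2 * Real.pi * y))) Filter.atTop
      (nhds 0) := by
    have h1 : Filter.Tendsto (fun y : ℝ => 2 * Real.pi * y) Filter.atTop Filter.atTop :=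
      Filter.tendsto_id.const_mul_atTop (by positivity)
    have h2 := (Real.tendsto_exp_neg_atTop_nhds_zero.comp h1).const_mul C
    simpa using h2
  have hle : ‖c‖ ≤ 0 :=
    ge_of_tendsto hlim (Filter.eventually_atTop.2 ⟨1, fun y hy => hkey y hy⟩)
  have hc0 : c = 0 := norm_le_zero_iff.1 hle
  exact hn₀ (hc ▸ hc0)

end H65Z
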