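import Pool.Agent.Lib.H36D.Defs
import Pool.Agent.Lib.H53M.K0

/-!
# H65Z: definitions (Theorem D, a zero estimate in characteristic zero by Wronskians)

`h_s` are primitives of modular forms of weight `k + 2`. If `F = Σ_{|α| = J} P_α h^α` (level one, weight `w`) vanishes to
the order `N` at infinity, then all `F|γ`, `γ ∈ SL₂(ℤ)`, span a space of dimension `m ≤ C J^(r+2)`, and the Wronskian of
this space is a form of weight `m (w + m - 1)` of level one with a character of order dividing `12`, and of order `≥ N` at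
infinity. So `12 N ≤ m (w + m)`.

All functions are functions `ℂ → ℂ`, considered on the upper half plane `HH`.
-/

open scoped MatrixGroups

namespace H65Z

/-- The upper half plane. -/
def HH : Set ℂ := {z | 0 < z.im}

/-- The Moebius transformation `(a z + b) / (c z + d)`. -/
noncomputable def mo (γ : SL(2, ℤ)) (z : ℂ) : ℂ :=
  ((γ 0 0 : ℤ) * z + (γ 0 1 : ℤ)) / ((γ 1 0 : ℤ) * z + (γ 1 1 : ℤ))

/-- The factor `c z + d`. -/
noncomputable def jo (γ : SL(2, ℤ)) (z : ℂ) : ℂ := (γ 1 0 : ℤ) * z + (γ 1 1 : ℤ)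

/-- The action of weight `w`: `(u|γ)(z) = (c z + d)^(-w) u(γ z)`. -/
noncomputable def sl (w : ℕ) (γ : SL(2, ℤ)) (u : ℂ → ℂ) (z : ℂ) : ℂ :=
  (jo γ z ^ w)⁻¹ * u (mo γ z)

/-- Holomorphic on `HH` and `O((1+|z|)^M e^(-2 π N Im z))` on every half plane `Im z ≥ δ`. -/
structure EG (N : ℕ) (u : ℂ → ℂ) : Prop where
  /-- holomorphic -/
  diff : DifferentiableOn ℂ u HH
  /-- growth -/
  bd : ∀ δ : ℝ, 0 < δ → ∃ (C : ℝ) (M : ℕ), ∀ z : ℂ, δ ≤ z.im →
    ‖u z‖ ≤ C * (1 + ‖z‖) ^ M * Real.exp (-(2 * Real.pi * N * z.im))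

/-- The Wronskian. -/
noncomputable def Wr {m : ℕ} (u : Fin m → ℂ → ℂ) (z : ℂ) : ℂ :=
  (Matrix.of fun i j : Fin m => iteratedDeriv (i : ℕ) (u j) z).det

/-- Linear independence on `HH`. -/
def LI {m : ℕ} (u : Fin m → ℂ → ℂ) : Prop :=
  ∀ c : Fin m → ℂ, (∀ z ∈ HH, ∑ j, c j * u j z = 0) → c = 0

/-- A finite family of functions of weight `k + 2`, stable under `SL₂(ℤ)`. -/
structure Fam (k : ℕ) {ι : Type} (g : ι → ℂ → ℂ) : Prop where
  /-- growth -/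
  eg : ∀ i, EG 0 (g i)
  /-- stable -/
  stab : ∀ i (γ : SL(2, ℤ)), ∃ j, ∀ z ∈ HH, g i (mo γ z) = jo γ z ^ (k + 2) * g j z

/-- The index set of the expansion of all the translates. -/
abbrev Bx (ι : Type) (r k J : ℕ) : Type :=
  (Fin r → ι) × (Fin r → Fin (J + 1)) × Fin (J * k + 1) × Fin (J * k + 1)

/-- `Σ_{|α| = J} P_α h^α`. -/
noncomputable def FF {r : ℕ} (J : ℕ) (P : (Fin r → ℕ) → ℂ → ℂ) (H : Fin r → ℂ → ℂ) (z : ℂ) : ℂ :=
  ∑ al ∈ Finset.piAntidiag (Finset.univ : Finset (Fin r)) J, P al z * ∏ s, H s z ^ al s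

/-- A level one form of weight `w`. -/
structure L1 (w : ℕ) (P : ℂ → ℂ) : Prop where
  /-- growth -/
  eg : EG 0 P
  /-- modularity -/
  inv : ∀ (γ : SL(2, ℤ)), ∀ z ∈ HH, P (mo γ z) = jo γ z ^ w * P z

/-- What is used of a form `Σ a(n) qⁿ` of weight `k + 2` on `Γ₁(N)`. -/
structure CF (N k : ℕ) (a : ℕ → ℂ) : Prop where
  /-- no constant term -/
  zero : a 0 = 0
  /-- polynomial growth -/
  growth : ∃ (C : ℝ) (K : ℕ), ∀ n, ‖a n‖ ≤ C * ((n : ℝ) + 1) ^ K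
  /-- modularity -/
  trans : ∀ A B C D : ℤ, A * D - B * C = 1 → (N : ℤ) ∣ C → (N : ℤ) ∣ D - 1 → ∀ z : ℂ, 0 < z.im →
    H53M.ev (PowerSeries.mk a) ((A * z + B) / (C * z + D)) =
      (C * z + D) ^ (k + 2) * H53M.ev (PowerSeries.mk a) z

/-- The series `Σ (a(n)/n) q^(d n)`. -/
noncomputable def hs (a : ℕ → ℂ) (d : ℕ) : PowerSeries ℂ :=
  PowerSeries.mk fun n => if d ∣ n then a (n / d) / ((n / d : ℕ) : ℂ) else 0

/-- The complexification of an integral series. -/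
noncomputable abbrev zC : PowerSeries ℤ →+* PowerSeries ℂ := PowerSeries.map (Int.castRingHom ℂ)

/-- The auxiliary series `Σ_t c(t) Lv(W,i) h^α`, `t = (α, i)`. -/
noncomputable def AA {r : ℕ} (a : ℕ → ℂ) (d : Fin r → ℕ) (J W : ℕ) (c : (Fin r → ℕ) × ℕ → ℂ) :
    PowerSeries ℂ :=
  ∑ t ∈ H36D.Ix r J W, c t • (zC (H36D.Lv W t.2) * H36D.Hm (fun s => hs a (d s)) t.1)

end H65Z
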