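import Pool.Agent.Lib.H65Z.Defs

/-!
# H65Z, chunk M1 (M): Moebius transformations

PROOF. `c z + d ≠ 0` for `Im z > 0` (if `c = 0` then `d ≠ 0` by the determinant, otherwise the imaginary part is `c Im z ≠ 0`). `det γ = 1`: `Matrix.SpecialLinearGroup.det_coe`,
`Matrix.det_fin_two`. `im_mo`: multiply by the conjugate of the denominator, or `UpperHalfPlane` lemmas (`specialLinearGroup_apply`, `UpperHalfPlane.im_smul_eq_div_normSq`) for `⟨z, hz⟩`.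
Products: `Matrix.SpecialLinearGroup.coe_mul`, `Matrix.mul_apply`, `Fin.sum_univ_two`, then `field_simp; ring`. `sl_mul` from `jo_mul`, `mo_mul`.
`hasDerivAt_mo`: quotient rule, `(a (c z + d) - (a z + b) c) = 1`.
-/

open scoped MatrixGroups

namespace H65Z

private theorem m1_det (γ : SL(2, ℤ)) :
    (γ 0 0 : ℤ) * (γ 1 1 : ℤ) - (γ 0 1 : ℤ) * (γ 1 0 : ℤ) = 1 := by
  have h := Matrix.SpecialLinearGroup.det_coe γ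
  rw [Matrix.det_fin_two] at h
  exact h

private theorem m1_detC (γ : SL(2, ℤ)) :
    ((γ 0 0 : ℤ) : ℂ) * ((γ 1 1 : ℤ) : ℂ) - ((γ 0 1 : ℤ) : ℂ) * ((γ 1 0 : ℤ) : ℂ) = 1 := by
  have h := m1_det γ
  exact_mod_cast h

theorem jo_ne (γ : SL(2, ℤ)) {z : ℂ} (hz : z ∈ HH) : jo γ z ≠ 0 := by
  intro h
  have hz' : 0 < z.im := hz
  unfold jo at h
  have him := congrArg Complex.im h
  simp only [Complex.add_im, Complex.mul_im, Complex.intCast_re, Complex.intCast_im, zero_mul,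
    add_zero, Complex.zero_im] at him
  have hc : ((γ 1 0 : ℤ) : ℝ) = 0 := by
    rcases mul_eq_zero.1 him with h1 | h1
    · exact h1
    · exact absurd h1 hz'.ne'
  have hc' : (γ 1 0 : ℤ) = 0 := by exact_mod_cast hc
  have hdet := m1_det γ
  rw [hc'] at h hdet
  rw [Int.cast_zero, zero_mul, zero_add] at h
  have hd : (γ 1 1 : ℤ) = 0 := by exact_mod_cast h
  rw [hd] at hdet
  simp at hdet

theorem im_mo (γ : SL(2, ℤ)) {z : ℂ} (hz : z ∈ HH) : (mo γ z).im = z.im / ‖jo γ z‖ ^ 2 := by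
  have hj := jo_ne γ hz
  have hdet : ((γ 0 0 : ℤ) : ℝ) * ((γ 1 1 : ℤ) : ℝ) - ((γ 0 1 : ℤ) : ℝ) * ((γ 1 0 : ℤ) : ℝ) = 1 := by
    exact_mod_cast m1_det γ
  have hn : Complex.normSq (jo γ z) ≠ 0 := fun h => hj (Complex.normSq_eq_zero.1 h)
  rw [← Complex.normSq_eq_norm_sq]
  have h1 : mo γ z = (((γ 0 0 : ℤ) : ℂ) * z + ((γ 0 1 : ℤ) : ℂ)) / jo γ z := rfl
  rw [h1, Complex.div_im]
  have h2 : (jo γ z).re = ((γ 1 0 : ℤ) : ℝ) * z.re + ((γ 1 1 : ℤ) : ℝ) := by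
    unfold jo
    simp
  have h3 : (jo γ z).im = ((γ 1 0 : ℤ) : ℝ) * z.im := by
    unfold jo
    simp
  have h4 : (((γ 0 0 : ℤ) : ℂ) * z + ((γ 0 1 : ℤ) : ℂ)).im = ((γ 0 0 : ℤ) : ℝ) * z.im := by
    simp
  have h5 : (((γ 0 0 : ℤ) : ℂ) * z + ((γ 0 1 : ℤ) : ℂ)).re =
      ((γ 0 0 : ℤ) : ℝ) * z.re + ((γ 0 1 : ℤ) : ℝ) := by
    simp
  rw [h4, h5, h2, h3, ← sub_div]
  congr 1
  linear_combination z.im * hdet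

theorem mo_mem (γ : SL(2, ℤ)) {z : ℂ} (hz : z ∈ HH) : mo γ z ∈ HH := by
  show 0 < (mo γ z).im
  rw [im_mo γ hz]
  have h1 : 0 < ‖jo γ z‖ := norm_pos_iff.2 (jo_ne γ hz)
  have h2 : 0 < z.im := hz
  positivity

private theorem m1_entry (γ γ' : SL(2, ℤ)) (i j : Fin 2) :
    (((γ * γ') i j : ℤ) : ℂ) = ((γ i 0 : ℤ) : ℂ) * ((γ' 0 j : ℤ) : ℂ) +
      ((γ i 1 : ℤ) : ℂ) * ((γ' 1 j : ℤ) : ℂ) := by
  have h : ((γ * γ') i j : ℤ) = γ i 0 * γ' 0 j + γ i 1 * γ' 1 j := by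
    rw [Matrix.SpecialLinearGroup.coe_mul, Matrix.mul_apply, Fin.sum_univ_two]
  rw [h]
  push_cast
  rfl

theorem jo_mul (γ γ' : SL(2, ℤ)) {z : ℂ} (hz : z ∈ HH) :
    jo (γ * γ') z = jo γ (mo γ' z) * jo γ' z := by
  have hj := jo_ne γ' hz
  have h1 : mo γ' z = (((γ' 0 0 : ℤ) : ℂ) * z + ((γ' 0 1 : ℤ) : ℂ)) / jo γ' z := rfl
  have h2 : jo γ (mo γ' z) = ((γ 1 0 : ℤ) : ℂ) * mo γ' z + ((γ 1 1 : ℤ) : ℂ) := rfl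
  have h3 : jo (γ * γ') z = (((γ * γ') 1 0 : ℤ) : ℂ) * z + (((γ * γ') 1 1 : ℤ) : ℂ) := rfl
  have h4 : jo γ' z = ((γ' 1 0 : ℤ) : ℂ) * z + ((γ' 1 1 : ℤ) : ℂ) := rfl
  have h5 : ((γ 1 0 : ℤ) : ℂ) * mo γ' z * jo γ' z =
      ((γ 1 0 : ℤ) : ℂ) * (((γ' 0 0 : ℤ) : ℂ) * z + ((γ' 0 1 : ℤ) : ℂ)) := by
    rw [mul_assoc, h1, div_mul_cancel₀ _ hj]
  rw [h2, h3, m1_entry, m1_entry]
  have h6 : (((γ 1 0 : ℤ) : ℂ) * mo γ' z + ((γ 1 1 : ℤ) : ℂ)) * jo γ' z =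
      ((γ 1 0 : ℤ) : ℂ) * mo γ' z * jo γ' z + ((γ 1 1 : ℤ) : ℂ) * jo γ' z := add_mul _ _ _
  rw [h6, h5, h4]
  ring

theorem mo_mul (γ γ' : SL(2, ℤ)) {z : ℂ} (hz : z ∈ HH) : mo (γ * γ') z = mo γ (mo γ' z) := by
  have hj := jo_ne γ' hz
  have hj' := jo_ne γ (mo_mem γ' hz)
  have h0 : mo (γ * γ') z =
      ((((γ * γ') 0 0 : ℤ) : ℂ) * z + (((γ * γ') 0 1 : ℤ) : ℂ)) / jo (γ * γ') z := rfl
  have h1 : mo γ (mo γ' z) = (((γ 0 0 : ℤ) : ℂ) * mo γ' z + ((γ 0 1 : ℤ) : ℂ)) /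
      jo γ (mo γ' z) := rfl
  have h2 : mo γ' z = (((γ' 0 0 : ℤ) : ℂ) * z + ((γ' 0 1 : ℤ) : ℂ)) / jo γ' z := rfl
  have h4 : jo γ' z = ((γ' 1 0 : ℤ) : ℂ) * z + ((γ' 1 1 : ℤ) : ℂ) := rfl
  rw [h0, h1, jo_mul γ γ' hz, div_eq_div_iff (mul_ne_zero hj' hj) hj', m1_entry, m1_entry]
  have h5 : ((γ 0 0 : ℤ) : ℂ) * mo γ' z * jo γ' z =
      ((γ 0 0 : ℤ) : ℂ) * (((γ' 0 0 : ℤ) : ℂ) * z + ((γ' 0 1 : ℤ) : ℂ)) := by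
    rw [mul_assoc, h2, div_mul_cancel₀ _ hj]
  have h6 : (((γ 0 0 : ℤ) : ℂ) * mo γ' z + ((γ 0 1 : ℤ) : ℂ)) * jo γ' z =
      (((γ 0 0 : ℤ) : ℂ) * ((γ' 0 0 : ℤ) : ℂ) + ((γ 0 1 : ℤ) : ℂ) * ((γ' 1 0 : ℤ) : ℂ)) * z +
        (((γ 0 0 : ℤ) : ℂ) * ((γ' 0 1 : ℤ) : ℂ) + ((γ 0 1 : ℤ) : ℂ) * ((γ' 1 1 : ℤ) : ℂ)) := by
    rw [add_mul, h5, h4]
    ring
  rw [← h6]
  ring

theorem mo_one (z : ℂ) : mo 1 z = z := by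
  unfold mo
  simp

theorem jo_one (z : ℂ) : jo 1 z = 1 := by
  unfold jo
  simp

theorem sl_one (w : ℕ) (u : ℂ → ℂ) (z : ℂ) : sl w 1 u z = u z := by
  unfold sl
  rw [mo_one, jo_one, one_pow, inv_one, one_mul]

theorem sl_mul (w : ℕ) (γ γ' : SL(2, ℤ)) (u : ℂ → ℂ) {z : ℂ} (hz : z ∈ HH) :
    sl w (γ * γ') u z = sl w γ' (sl w γ u) z := by
  unfold sl
  rw [mo_mul γ γ' hz, jo_mul γ γ' hz, mul_pow, mul_inv]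
  ring

theorem hasDerivAt_mo (γ : SL(2, ℤ)) {z : ℂ} (hz : z ∈ HH) :
    HasDerivAt (mo γ) ((jo γ z ^ 2)⁻¹) z := by
  have hj := jo_ne γ hz
  have h1 : HasDerivAt (fun z : ℂ => ((γ 0 0 : ℤ) : ℂ) * z + ((γ 0 1 : ℤ) : ℂ))
      ((γ 0 0 : ℤ) : ℂ) z := by
    have := ((hasDerivAt_id z).const_mul ((γ 0 0 : ℤ) : ℂ)).add_const ((γ 0 1 : ℤ) : ℂ)
    simpa using this
  have h2 : HasDerivAt (fun z : ℂ => ((γ 1 0 : ℤ) : ℂ) * z + ((γ 1 1 : ℤ) : ℂ))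
      ((γ 1 0 : ℤ) : ℂ) z := by
    have := ((hasDerivAt_id z).const_mul ((γ 1 0 : ℤ) : ℂ)).add_const ((γ 1 1 : ℤ) : ℂ)
    simpa using this
  have h3 := h1.div h2 hj
  have h4 : (((γ 0 0 : ℤ) : ℂ) * (((γ 1 0 : ℤ) : ℂ) * z + ((γ 1 1 : ℤ) : ℂ)) -
      (((γ 0 0 : ℤ) : ℂ) * z + ((γ 0 1 : ℤ) : ℂ)) * ((γ 1 0 : ℤ) : ℂ)) /
      (((γ 1 0 : ℤ) : ℂ) * z + ((γ 1 1 : ℤ) : ℂ)) ^ 2 = (jo γ z ^ 2)⁻¹ := by
    have h5 : ((γ 0 0 : ℤ) : ℂ) * (((γ 1 0 : ℤ) : ℂ) * z + ((γ 1 1 : ℤ) : ℂ)) -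
      (((γ 0 0 : ℤ) : ℂ) * z + ((γ 0 1 : ℤ) : ℂ)) * ((γ 1 0 : ℤ) : ℂ) = 1 := by
      linear_combination m1_detC γ
    rw [h5, one_div]
    rfl
  rw [h4] at h3
  exact h3

theorem mo_S (z : ℂ) : mo ModularGroup.S z = -1 / z := by
  unfold mo
  simp [ModularGroup.S]

theorem jo_S (z : ℂ) : jo ModularGroup.S z = z := by
  unfold jo
  simp [ModularGroup.S]

theorem mo_T (z : ℂ) : mo ModularGroup.T z = z + 1 := by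
  unfold mo
  simp [ModularGroup.T]

theorem jo_T (z : ℂ) : jo ModularGroup.T z = 1 := by
  unfold jo
  simp [ModularGroup.T]

end H65Z
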