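import Pool.Agent.Lib.H65Z.M2
import Pool.Agent.Lib.H53M.KMF

/-!
# H65Z, chunk M10 (M/L): a level one form with a zero of high order

PROOF. `G` is holomorphic on `HH` with period `1` and bounded on `Im z ≥ 1` by `C (1+‖z‖)^M e^(-2πN Im z)`; by periodicity (`|Re z| ≤ 1`) `‖G z‖ ≤ C' e^(-2π(N - 1/2) Im z)`, in particular bounded at infinity
(if `N = 0` the hypothesis `K < 12 N` is absurd, so `N ≥ 1`). `τ ↦ G τ` on `ℍ` is a modular form of level one and weight `K` (same construction as `KMF` in Lib/H53M/KMF.lean: `hS, hT` as there,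
`UpperHalfPlane.mdifferentiable_iff`, `SlashInvariantForm.slash_action_generators_SL2Z`). The coefficient `n < N` of its `q`-expansion is `0`: `qExpansion_coeff_eq_intervalIntegral`
(Mathlib QExpansion: `c_n = ∫_0^1 e^(-2πi n (x+iy)) G(x+iy) dx` for every `y > 0`), bounded by `C' e^(2π n y - 2π (N-1/2) y) → 0`, `y → ∞`. So the order is `≥ N > K/12` and
`ModularForm.sturm_bound_levelOne_nat` gives `G = 0`.
-/

namespace H65Z

open UpperHalfPlane ModularForm Filter Topology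
open scoped MatrixGroups ModularForm

private theorem M10_tendsto (M : ℕ) :
    Tendsto (fun y : ℝ => (2 + y) ^ M * Real.exp (-y)) atTop (𝓝 0) := by
  have h1 := (Real.tendsto_pow_mul_exp_neg_atTop_nhds_zero M).comp
    (tendsto_atTop_add_const_left atTop (2 : ℝ) tendsto_id)
  have h2 := h1.const_mul (Real.exp 2)
  rw [mul_zero] at h2
  refine h2.congr fun y => ?_
  simp only [Function.comp, id]
  rw [show -(2 + y) = -2 + -y by ring, Real.exp_add, Real.exp_neg 2]
  have h3 : Real.exp 2 ≠ 0 := (Real.exp_pos 2).ne'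
  field_simp

private theorem M10_add_nat (G : ℂ → ℂ) (hT : ∀ z ∈ HH, G (z + 1) = G z) (n : ℕ) :
    ∀ z ∈ HH, G (z + n) = G z := by
  induction n with
  | zero => intro z _; simp
  | succ n ih =>
    intro z hz
    have h1 : z + (n : ℂ) ∈ HH := by
      simp only [HH, Set.mem_ofPred_eq, Complex.add_im, Complex.natCast_im, add_zero]
      exact hz
    have h2 := hT _ h1
    rw [← ih z hz, ← h2]
    congr 1
    push_cast
    ring

private theorem M10_add_int (G : ℂ → ℂ) (hT : ∀ z ∈ HH, G (z + 1) = G z) (n : ℤ) :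
    ∀ z ∈ HH, G (z + n) = G z := by
  intro z hz
  obtain ⟨m, rfl | rfl⟩ := n.eq_nat_or_neg
  · simpa using M10_add_nat G hT m z hz
  · have h1 : z + ((-(m : ℤ) : ℤ) : ℂ) ∈ HH := by
      simp only [HH, Set.mem_ofPred_eq, Complex.add_im, Complex.intCast_im, add_zero]
      exact hz
    have h2 := M10_add_nat G hT m _ h1
    rw [← h2]
    congr 1
    push_cast
    ring

private theorem M10_bd (N : ℕ) (G : ℂ → ℂ) (hG : EG N G) (hT : ∀ z ∈ HH, G (z + 1) = G z) :
    ∃ (C : ℝ) (M : ℕ), 0 ≤ C ∧ ∀ z : ℂ, 1 ≤ z.im →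
      ‖G z‖ ≤ C * (2 + z.im) ^ M * Real.exp (-(2 * Real.pi * N * z.im)) := by
  obtain ⟨C, M, h⟩ := hG.bd 1 one_pos
  refine ⟨|C|, M, abs_nonneg C, fun z hz => ?_⟩
  have hz0 : z ∈ HH := lt_of_lt_of_le one_pos hz
  set w : ℂ := z + ((-⌊z.re⌋ : ℤ) : ℂ) with hw
  have hwim : w.im = z.im := by simp [hw]
  have hwre : w.re = z.re - ⌊z.re⌋ := by simp [hw, sub_eq_add_neg]
  have h1 : G w = G z := M10_add_int G hT _ z hz0
  have h2 := h w (by rw [hwim]; exact hz)
  rw [h1, hwim] at h2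
  have h3 : ‖w‖ ≤ 1 + z.im := by
    refine (Complex.norm_le_abs_re_add_abs_im w).trans ?_
    rw [hwim, hwre, abs_of_nonneg (sub_nonneg.2 (Int.floor_le z.re)),
      abs_of_nonneg (by linarith : (0 : ℝ) ≤ z.im)]
    have := Int.lt_floor_add_one z.re
    linarith
  refine h2.trans ?_
  refine mul_le_mul_of_nonneg_right ?_ (Real.exp_pos _).le
  have h4 : (1 + ‖w‖) ^ M ≤ (2 + z.im) ^ M :=
    pow_le_pow_left₀ (by positivity) (by linarith) M
  calc C * (1 + ‖w‖) ^ M ≤ |C| * (1 + ‖w‖) ^ M :=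
        mul_le_mul_of_nonneg_right (le_abs_self C) (by positivity)
    _ ≤ |C| * (2 + z.im) ^ M := mul_le_mul_of_nonneg_left h4 (abs_nonneg C)

set_option backward.isDefEq.respectTransparency.types false in
private theorem M10_T (G : ℂ → ℂ) (hT : ∀ z ∈ HH, G (z + 1) = G z) (w : ℕ) :
    (fun τ : ℍ => G (τ : ℂ)) ∣[(w : ℤ)] ModularGroup.T = fun τ : ℍ => G (τ : ℂ) := by
  ext z
  rw [ModularForm.SL_slash_apply, denom, modular_T_smul, ModularGroup.T]
  have h1 := hT (z : ℂ) z.im_pos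
  simp only [coe_vadd]
  rw [add_comm] at h1
  simp [h1]

private theorem M10_form (K N : ℕ) (hN : 0 < N) (G : ℂ → ℂ) (hG : EG N G)
    (hS : ∀ z ∈ HH, G (-1 / z) = z ^ K * G z) (hT : ∀ z ∈ HH, G (z + 1) = G z) :
    ∃ F : ModularForm 𝒮ℒ (K : ℤ), ∀ τ : ℍ, F τ = G (τ : ℂ) := by
  have hS' : (fun τ : ℍ => G (τ : ℂ)) ∣[(K : ℤ)] ModularGroup.S = fun τ : ℍ => G (τ : ℂ) := by
    ext z
    rw [SlashInvariantForm.slash_S_apply]
    have h1 := hS z z.im_pos
    have h2 : ((UpperHalfPlane.mk _ z.im_inv_neg_coe_pos : ℍ) : ℂ) = -1 / (z : ℂ) := by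
      simp [neg_div]
    rw [h2, h1, zpow_neg, zpow_natCast]
    have h3 : (z : ℂ) ^ K ≠ 0 := pow_ne_zero _ z.ne_zero
    field_simp
  have hT' := M10_T G hT K
  have hinv := SlashInvariantForm.slash_action_generators_SL2Z hS' hT'
  have hbdd : IsBoundedAtImInfty (fun τ : ℍ => G (τ : ℂ)) := by
    obtain ⟨C, M, hC, hb⟩ := M10_bd N G hG hT
    have h1 := (M10_tendsto M).eventually (ge_mem_nhds (show (0 : ℝ) < 1 from one_pos))
    obtain ⟨y0, hy0⟩ := (h1.and (eventually_ge_atTop 1)).exists_forall_of_atTop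
    rw [UpperHalfPlane.isBoundedAtImInfty_iff]
    refine ⟨C, y0, fun z hz => ?_⟩
    obtain ⟨h2, h3⟩ := hy0 z.im hz
    have h4 := hb (z : ℂ) h3
    refine h4.trans ?_
    have h5 : Real.exp (-(2 * Real.pi * N * (z : ℂ).im)) ≤ Real.exp (-z.im) := by
      rw [Real.exp_le_exp]
      have h6 : (1 : ℝ) ≤ N := by exact_mod_cast hN
      have h7 : (1 : ℝ) ≤ 2 * Real.pi * N := by nlinarith [Real.pi_gt_three]
      have h8 : 0 < z.im := z.im_pos
      have h9 : (z : ℂ).im = z.im := rfl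
      rw [h9]
      nlinarith
    have h10 : (0 : ℝ) ≤ (2 + (z : ℂ).im) ^ M := by
      have : 0 < (z : ℂ).im := z.im_pos
      positivity
    calc C * (2 + (z : ℂ).im) ^ M * Real.exp (-(2 * Real.pi * N * (z : ℂ).im))
        ≤ C * (2 + (z : ℂ).im) ^ M * Real.exp (-z.im) :=
          mul_le_mul_of_nonneg_left h5 (mul_nonneg hC h10)
      _ = C * ((2 + z.im) ^ M * Real.exp (-z.im)) := by rw [mul_assoc]; rfl
      _ ≤ C * 1 := mul_le_mul_of_nonneg_left h2 hC
      _ = C := mul_one C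
  let F : ModularForm 𝒮ℒ (K : ℤ) :=
    { toFun := fun τ : ℍ => G (τ : ℂ)
      slash_action_eq' := by
        rintro A ⟨A, rfl⟩
        exact hinv A
      holo' := by
        rw [UpperHalfPlane.mdifferentiable_iff]
        refine hG.diff.congr fun z hz => ?_
        have hz' : 0 < z.im := hz
        simp [ofComplex_apply_of_im_pos hz']
      bdd_at_cusps' := by
        intro c hc
        rw [Subgroup.IsArithmetic.isCusp_iff_isCusp_SL2Z] at hc
        rw [OnePoint.isBoundedAt_iff_forall_SL2Z hc]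
        intro γ _
        have h1 : (fun τ : ℍ => G (τ : ℂ)) ∣[(K : ℤ)] γ = fun τ : ℍ => G (τ : ℂ) := hinv γ
        change IsBoundedAtImInfty ((fun τ : ℍ => G (τ : ℂ)) ∣[(K : ℤ)] γ)
        rw [h1]
        exact hbdd }
  exact ⟨F, fun τ => rfl⟩

private theorem M10_coeff (K N : ℕ) (G : ℂ → ℂ) (hG : EG N G) (hT : ∀ z ∈ HH, G (z + 1) = G z)
    (F : ModularForm 𝒮ℒ (K : ℤ)) (hF : ∀ τ : ℍ, F τ = G (τ : ℂ)) (n : ℕ) (hn : n < N) :
    PowerSeries.coeff n (qExpansion 1 F) = 0 := by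
  obtain ⟨C, M, hC, hb⟩ := M10_bd N G hG hT
  have key : ∀ t : ℝ, 1 ≤ t →
      ‖PowerSeries.coeff n (qExpansion 1 F)‖ ≤ C * ((2 + t) ^ M * Real.exp (-t)) := by
    intro t ht
    have ht0 : 0 < t := by linarith
    rw [ModularFormClass.qExpansion_coeff_eq_intervalIntegral (t := t) F one_pos
      one_mem_strictPeriods_SL n ht0]
    rw [Complex.ofReal_one, div_one, one_mul]
    refine (intervalIntegral.norm_integral_le_of_norm_le_const
      (C := C * ((2 + t) ^ M * Real.exp (-t))) ?_).trans (by simp)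
    intro u _
    have him : ((u : ℂ) + t * Complex.I).im = t := by simp
    have h1 := hb ((u : ℂ) + t * Complex.I) (by rw [him]; exact ht)
    rw [him] at h1
    rw [hF, norm_mul, norm_div, norm_one, norm_pow, Function.Periodic.norm_qParam, him, div_one,
      one_div, ← inv_pow, ← Real.exp_neg, ← Real.exp_nat_mul]
    have h2 : Real.exp ((n : ℝ) * -(-2 * Real.pi * t)) * Real.exp (-(2 * Real.pi * N * t)) ≤
        Real.exp (-t) := by
      rw [← Real.exp_add, Real.exp_le_exp]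
      have h3 : (n : ℝ) + 1 ≤ N := by exact_mod_cast hn
      have h4 : 0 < 2 * Real.pi * t := by positivity
      have h5 : 1 * t ≤ 2 * Real.pi * t := by
        refine mul_le_mul_of_nonneg_right ?_ ht0.le
        linarith [Real.pi_gt_three]
      nlinarith [mul_le_mul_of_nonneg_left h3 h4.le]
    have h6 : 0 ≤ C * (2 + t) ^ M := by positivity
    calc Real.exp ((n : ℝ) * -(-2 * Real.pi * t)) * ‖G ((u : ℂ) + t * Complex.I)‖
        ≤ Real.exp ((n : ℝ) * -(-2 * Real.pi * t)) *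
            (C * (2 + t) ^ M * Real.exp (-(2 * Real.pi * N * t))) :=
          mul_le_mul_of_nonneg_left h1 (Real.exp_pos _).le
      _ = C * (2 + t) ^ M * (Real.exp ((n : ℝ) * -(-2 * Real.pi * t)) *
            Real.exp (-(2 * Real.pi * N * t))) := by ring
      _ ≤ C * (2 + t) ^ M * Real.exp (-t) := mul_le_mul_of_nonneg_left h2 h6
      _ = C * ((2 + t) ^ M * Real.exp (-t)) := by ring
  have h1 := (M10_tendsto M).const_mul C
  rw [mul_zero] at h1
  have h2 : ‖PowerSeries.coeff n (qExpansion 1 F)‖ ≤ 0 :=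
    ge_of_tendsto h1 ((eventually_ge_atTop 1).mono key)
  exact norm_le_zero_iff.1 h2

theorem sturm_zero (K N : ℕ) (G : ℂ → ℂ) (hG : EG N G) (hS : ∀ z ∈ HH, G (-1 / z) = z ^ K * G z)
    (hT : ∀ z ∈ HH, G (z + 1) = G z) (h : K < 12 * N) : ∀ z ∈ HH, G z = 0 := by
  have hN : 0 < N := by omega
  obtain ⟨F, hF⟩ := M10_form K N hN G hG hS hT
  have h1 : (N : ℕ∞) ≤ (qExpansion 1 F).order := by
    refine PowerSeries.nat_le_order _ _ fun n hn => ?_
    exact M10_coeff K N G hG hT F hF n hn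
  have h2 : (↑(K / 12) : ℕ∞) < (qExpansion 1 F).order := by
    refine lt_of_lt_of_le ?_ h1
    have : K / 12 < N := by omega
    exact_mod_cast this
  have h3 : F = 0 := sturm_bound_levelOne_nat h2
  intro z hz
  have h4 := hF ⟨z, hz⟩
  rw [h3] at h4
  simpa using h4.symm

end H65Z
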