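import Pool.Agent.Lib.H65Z.Defs

/-!
# H65Z, chunk M6 (M/L): the Wronskian of linearly independent holomorphic functions

PROOF. Copy the proof of `wronskian_ne` in Lib/H78G/D5A.lean (entire functions) to functions holomorphic on the open connected set `HH` (`HH` is convex, so preconnected; `isOpen_lt`):
`iteratedDeriv l f` is holomorphic on `HH` (`DifferentiableOn.deriv`, induction), all statements are restricted to `z ∈ HH`; the ball on which `c 0 ≠ 0` is taken inside `HH`;
the identity theorem is `AnalyticOnNhd.eqOn_of_preconnected_of_eventuallyEq` on `HH` (`DifferentiableOn.analyticOnNhd`).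
-/

namespace H65Z

private theorem M6_open : IsOpen HH := isOpen_lt continuous_const Complex.continuous_im

private theorem M6_conn : IsPreconnected HH := (convex_halfSpace_im_gt 0).isPreconnected

/-- Wronskian matrix -/
private noncomputable def M6_A {m : ℕ} (Y : Fin (m + 1) → ℂ → ℂ) (z : ℂ) :
    Matrix (Fin (m + 1)) (Fin (m + 1)) ℂ :=
  Matrix.of fun l j => iteratedDeriv (l : ℕ) (Y j) z

private theorem M6_diff {f : ℂ → ℂ} (hf : DifferentiableOn ℂ f HH) (l : ℕ) :
    DifferentiableOn ℂ (iteratedDeriv l f) HH := by
  induction l with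
  | zero =>
    rw [iteratedDeriv_zero]
    exact hf
  | succ l ih =>
    rw [iteratedDeriv_succ]
    exact ih.deriv M6_open

private theorem M6_hasDeriv {f : ℂ → ℂ} (hf : DifferentiableOn ℂ f HH) (l : ℕ) {z : ℂ}
    (hz : z ∈ HH) : HasDerivAt (iteratedDeriv l f) (iteratedDeriv (l + 1) f z) z := by
  rw [iteratedDeriv_succ]
  exact ((M6_diff hf l).differentiableAt (M6_open.mem_nhds hz)).hasDerivAt

private theorem M6_det_diff {n : ℕ} {M : ℂ → Matrix (Fin n) (Fin n) ℂ}
    (hM : ∀ i j, DifferentiableOn ℂ (fun z => M z i j) HH) :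
    DifferentiableOn ℂ (fun z => (M z).det) HH := by
  simp only [Matrix.det_apply']
  refine DifferentiableOn.fun_sum fun σ _ => ?_
  refine DifferentiableOn.const_mul ?_ _
  exact DifferentiableOn.fun_finsetProd fun i _ => hM _ _

private theorem M6_main : ∀ (m : ℕ) (Y : Fin (m + 1) → ℂ → ℂ),
    (∀ j, DifferentiableOn ℂ (Y j) HH) → (∀ z ∈ HH, (M6_A Y z).det = 0) →
    ∃ lam : Fin (m + 1) → ℂ, lam ≠ 0 ∧ ∀ z ∈ HH, ∑ j, lam j * Y j z = 0 := by
  intro m
  induction m with
  | zero =>
    intro Y _ h
    refine ⟨fun _ => 1, fun h0 => ?_, fun z hz => ?_⟩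
    · have := congrFun h0 0
      simp at this
    · have h1 := h z hz
      rw [Matrix.det_fin_one] at h1
      simpa [M6_A] using h1
  | succ m ih =>
    intro Y hY hdet
    let Yt : Fin (m + 1) → ℂ → ℂ := fun j => Y j.succ
    by_cases hcase : ∀ z ∈ HH, (M6_A Yt z).det = 0
    · obtain ⟨lam, hlam, hsum⟩ := ih Yt (fun j => hY _) hcase
      refine ⟨Fin.cons 0 lam, fun h0 => hlam ?_, fun z hz => ?_⟩
      · funext j
        have := congrFun h0 j.succ
        simpa using this
      · rw [Fin.sum_univ_succ]
        simp only [Fin.cons_zero, zero_mul, Fin.cons_succ, zero_add]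
        exact hsum z hz
    · push Not at hcase
      obtain ⟨z₀, hz₀H, hz₀⟩ := hcase
      let A : ℂ → Matrix (Fin (m + 2)) (Fin (m + 2)) ℂ := fun z => M6_A Y z
      let c : Fin (m + 2) → ℂ → ℂ := fun b z => (A z).adjugate b (Fin.last (m + 1))
      have hc_eq : ∀ b z, c b z = (-1) ^ ((Fin.last (m + 1) : Fin (m + 2)) + b : ℕ) *
          ((A z).submatrix (Fin.last (m + 1)).succAbove b.succAbove).det := by
        intro b z
        exact Matrix.adjugate_fin_succ_eq_det_submatrix (A z) b (Fin.last (m + 1))
      have hcd : ∀ b, DifferentiableOn ℂ (c b) HH := by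
        intro b
        have : c b = fun z => (-1) ^ ((Fin.last (m + 1) : Fin (m + 2)) + b : ℕ) *
          ((A z).submatrix (Fin.last (m + 1)).succAbove b.succAbove).det := funext (hc_eq b)
        rw [this]
        refine DifferentiableOn.const_mul (M6_det_diff fun i j => ?_) _
        exact M6_diff (hY _) _
      have hcda : ∀ b, ∀ z ∈ HH, DifferentiableAt ℂ (c b) z := fun b z hz =>
        (hcd b).differentiableAt (M6_open.mem_nhds hz)
      have hc0 : ∀ z, c 0 z = (-1) ^ ((Fin.last (m + 1) : Fin (m + 2)) + (0 : Fin (m + 2)) : ℕ) *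
          (M6_A Yt z).det := by
        intro z
        rw [hc_eq 0 z]
        congr 2
        ext l j
        simp [A, M6_A, Yt, Fin.succAbove_last]
      have hc0' : ∀ z, c 0 z ≠ 0 → (M6_A Yt z).det ≠ 0 := by
        intro z hz h0
        apply hz
        rw [hc0 z, h0, mul_zero]
      have hz₀' : c 0 z₀ ≠ 0 := by
        rw [hc0 z₀]
        exact mul_ne_zero (pow_ne_zero _ (by norm_num)) hz₀
      have hrow : ∀ (l : Fin (m + 2)), ∀ z ∈ HH,
          ∑ b, iteratedDeriv (l : ℕ) (Y b) z * c b z = 0 := by
        intro l z hz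
        have h1 := congrFun (congrFun (Matrix.mul_adjugate (A z)) l) (Fin.last (m + 1))
        rw [hdet z hz, zero_smul, Matrix.mul_apply] at h1
        simpa [A, M6_A, c] using h1
      have hrow' : ∀ (l : Fin (m + 1)), ∀ z ∈ HH,
          ∑ b, iteratedDeriv (l : ℕ) (Y b) z * deriv (c b) z = 0 := by
        intro l z hz
        have h1 : HasDerivAt (fun z => ∑ b, iteratedDeriv (l : ℕ) (Y b) z * c b z)
            (∑ b, (iteratedDeriv ((l : ℕ) + 1) (Y b) z * c b z +
              iteratedDeriv (l : ℕ) (Y b) z * deriv (c b) z)) z := by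
          refine HasDerivAt.fun_sum fun b _ => ?_
          exact (M6_hasDeriv (hY b) (l : ℕ) hz).mul (hcda b z hz).hasDerivAt
        have h2 : (fun z => ∑ b, iteratedDeriv (l : ℕ) (Y b) z * c b z) =ᶠ[nhds z]
            fun _ => (0 : ℂ) := by
          filter_upwards [M6_open.mem_nhds hz] with w hw
          have := hrow l.castSucc w hw
          simpa using this
        have h3 := h1.unique ((hasDerivAt_const z (0 : ℂ)).congr_of_eventuallyEq h2)
        rw [Finset.sum_add_distrib] at h3
        have h4 := hrow l.succ z hz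
        simp only [Fin.val_succ] at h4
        rw [h4, zero_add] at h3
        exact h3
      have he : ∀ (b : Fin (m + 1)), ∀ z ∈ HH, c 0 z ≠ 0 →
          c 0 z * deriv (c b.succ) z - deriv (c 0) z * c b.succ z = 0 := by
        intro b z hzH hz
        let e : Fin (m + 1) → ℂ := fun b => c 0 z * deriv (c b.succ) z - deriv (c 0) z * c b.succ z
        have hmul : (M6_A Yt z).mulVec e = 0 := by
          funext l
          simp only [Matrix.mulVec, dotProduct, Pi.zero_apply]
          have h1 := hrow' l z hzH
          have h2 := hrow l.castSucc z hzH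
          rw [Fin.sum_univ_succ] at h1 h2
          simp only [Fin.val_castSucc] at h2
          have h3 : ∑ x, M6_A Yt z l x * e x =
              c 0 z * (∑ i : Fin (m + 1), iteratedDeriv (l : ℕ) (Y i.succ) z * deriv (c i.succ) z) -
              deriv (c 0) z * (∑ i : Fin (m + 1), iteratedDeriv (l : ℕ) (Y i.succ) z * c i.succ z) := by
            rw [Finset.mul_sum, Finset.mul_sum, ← Finset.sum_sub_distrib]
            refine Finset.sum_congr rfl fun x _ => ?_
            simp only [M6_A, Matrix.of_apply, Yt, e]
            ring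
          rw [h3]
          linear_combination c 0 z * h1 - deriv (c 0) z * h2
        have h0 : e = 0 := Matrix.eq_zero_of_mulVec_eq_zero (hc0' z hz) hmul
        exact congrFun h0 b
      -- a ball on which `c 0 ≠ 0`
      have hev : ∀ᶠ z in nhds z₀, c 0 z ≠ 0 ∧ z ∈ HH :=
        ((hcda 0 z₀ hz₀H).continuousAt.eventually_ne hz₀').and (M6_open.mem_nhds hz₀H)
      obtain ⟨ε, hε, hball⟩ := Metric.eventually_nhds_iff_ball.mp hev
      have hconst : ∀ (b : Fin (m + 1)), ∀ z ∈ Metric.ball z₀ ε,
          c b.succ z / c 0 z = c b.succ z₀ / c 0 z₀ := by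
        intro b z hz
        refine Metric.isOpen_ball.is_const_of_deriv_eq_zero (f := fun z => c b.succ z / c 0 z)
          (convex_ball z₀ ε).isPreconnected ?_ ?_ hz (Metric.mem_ball_self hε)
        · exact fun w hw => ((hcda b.succ w (hball w hw).2).div (hcda 0 w (hball w hw).2)
            (hball w hw).1).differentiableWithinAt
        · intro w hw
          have h1 := (hball w hw).1
          have hwH := (hball w hw).2
          have h2 := ((hcda b.succ w hwH).hasDerivAt.div (hcda 0 w hwH).hasDerivAt h1).deriv
          simp only [Pi.zero_apply]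
          have h3 : deriv (fun z => c b.succ z / c 0 z) w = _ := h2
          rw [h3]
          have h4 := he b w hwH h1
          have h5 : deriv (c b.succ) w * c 0 w - c b.succ w * deriv (c 0) w = 0 := by
            linear_combination h4
          rw [h5, zero_div]
      refine ⟨Fin.cons 1 fun b => c b.succ z₀ / c 0 z₀, fun h0 => ?_, ?_⟩
      · have := congrFun h0 0
        simp at this
      · have hd : DifferentiableOn ℂ (fun z => ∑ j, (Fin.cons 1 (fun b => c b.succ z₀ / c 0 z₀) :
            Fin (m + 2) → ℂ) j * Y j z) HH :=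
          DifferentiableOn.fun_sum fun j _ => (hY j).const_mul _
        have ha := hd.analyticOnNhd M6_open
        have hz : AnalyticOnNhd ℂ (fun _ : ℂ => (0 : ℂ)) HH := fun w _ => analyticAt_const
        have hfin := ha.eqOn_of_preconnected_of_eventuallyEq hz M6_conn hz₀H ?_
        · exact fun z hz => hfin hz
        · filter_upwards [Metric.ball_mem_nhds z₀ hε] with z hzb
          rw [Fin.sum_univ_succ]
          simp only [Fin.cons_zero, Fin.cons_succ, one_mul]
          have h2 := (hball z hzb).1
          have h1 := hrow 0 z (hball z hzb).2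
          rw [Fin.sum_univ_succ] at h1
          simp only [Fin.val_zero, iteratedDeriv_zero] at h1
          have h3 : ∑ i : Fin (m + 1), c i.succ z₀ / c 0 z₀ * Y i.succ z =
              (∑ i : Fin (m + 1), Y i.succ z * c i.succ z) / c 0 z := by
            rw [Finset.sum_div]
            refine Finset.sum_congr rfl fun i _ => ?_
            rw [← hconst i z hzb]
            ring
          rw [h3]
          have h4 : ∑ i : Fin (m + 1), Y i.succ z * c i.succ z = - (Y 0 z * c 0 z) := by
            linear_combination h1
          rw [h4]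
          field_simp
          ring

theorem wr_ne {m : ℕ} (u : Fin m → ℂ → ℂ) (hu : ∀ j, DifferentiableOn ℂ (u j) HH) (h : LI u) :
    ∃ z ∈ HH, Wr u z ≠ 0 := by
  cases m with
  | zero =>
    refine ⟨Complex.I, ?_, ?_⟩
    · show 0 < Complex.I.im
      rw [Complex.I_im]
      exact one_pos
    · unfold Wr
      rw [Matrix.det_fin_zero]
      exact one_ne_zero
  | succ m =>
    by_contra hcon
    push Not at hcon
    obtain ⟨lam, hlam, hsum⟩ := M6_main m u hu fun z hz => hcon z hz
    exact hlam (h lam hsum)

end H65Z
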