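import Pool.Agent.Lib.H65Z.M3

/-!
# H65Z, chunk M7 (S/M): the growth of the Wronskian

PROOF. `Matrix.det_apply'`: a sum of signs times products over the columns `j` of `iteratedDeriv (σ j) (u j)` (or rows, `Matrix.det_transpose`); the factor of the column `0` is of class `EG N` (M3), the others of class `EG 0`
(`Fin.prod_univ_succ`, `EG.prod`, `EG.mul`, `EG.smul`, `EG.sum`).
-/

namespace H65Z

theorem EG_Wr {m N : ℕ} {u : Fin (m + 1) → ℂ → ℂ} (h0 : EG N (u 0)) (hu : ∀ j, EG 0 (u j)) :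
    EG N (Wr u) := by
  have h : ∀ z, Wr u z = ∑ σ : Equiv.Perm (Fin (m + 1)), ((Equiv.Perm.sign σ : ℤ) : ℂ) *
      (iteratedDeriv (σ 0 : ℕ) (u 0) z *
        ∏ j : Fin m, iteratedDeriv (σ j.succ : ℕ) (u j.succ) z) := by
    intro z
    rw [Wr, Matrix.det_apply']
    refine Finset.sum_congr rfl fun σ _ => ?_
    rw [Fin.prod_univ_succ]
    rfl
  refine EG.congr (u := fun z => ∑ σ : Equiv.Perm (Fin (m + 1)), ((Equiv.Perm.sign σ : ℤ) : ℂ) *
      (iteratedDeriv (σ 0 : ℕ) (u 0) z *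
        ∏ j : Fin m, iteratedDeriv (σ j.succ : ℕ) (u j.succ) z)) ?_ (fun z _ => h z)
  refine EG.sum _ fun σ _ => EG.smul _ ?_
  exact (h0.iteratedDeriv _).mul (EG.prod _ fun j _ => (hu _).iteratedDeriv _)

end H65Z
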