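import Pool.Agent.Lib.H65Z.Defs

/-!
# H65Z, chunk M8 (M): a basis of translates

PROOF. Work in the vector space `V = HH → ℂ` (functions on the subtype). `f γ : V` the restriction of `F γ`, all `f γ` lie in the span of the restrictions of the `Φ e`, of dimension `≤ card E`. The singleton
`{f γ₀}` is linearly independent (`f γ₀ ≠ 0`); extend it to a basis of `span (range f)` inside `range f`
(`exists_linearIndependent_extension` / `LinearIndepOn.extend`, `LinearIndependent.extend`): a linearly independent set `B` with `f γ₀ ∈ B ⊆ range f ⊆ span B`; it is finite with `B.card ≤ card E`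
(`LinearIndependent.finite`, `finrank_span_le_card`, `LinearIndependent.fintype_card_le_finrank`). Enumerate `B` by `Fin (m+1)` with `f γ₀` at the place `0` (`Finset.equivFin` and `Equiv.swap`), choose preimages `g j` (`g 0 = γ₀`).
-/

namespace H65Z

private theorem M8_card {Γ E : Type} [Fintype E] (F : Γ → ℂ → ℂ) (φ : Γ → E → ℂ) (Φ : E → ℂ → ℂ)
    (hF : ∀ γ, ∀ z ∈ HH, F γ z = ∑ e, φ γ e * Φ e z) (m : ℕ) (g : Fin (m + 1) → Γ)
    (hg : LI (fun j => F (g j))) : m + 1 ≤ Fintype.card E := by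
  classical
  let L : (Fin (m + 1) → ℂ) →ₗ[ℂ] (E → ℂ) :=
    { toFun := fun c e => ∑ j, c j * φ (g j) e
      map_add' := by
        intro c d
        funext e
        simp only [Pi.add_apply, add_mul, Finset.sum_add_distrib]
      map_smul' := by
        intro r c
        funext e
        simp only [Pi.smul_apply, smul_eq_mul, RingHom.id_apply, Finset.mul_sum, mul_assoc] }
  have hinj : Function.Injective L := by
    rw [← LinearMap.ker_eq_bot, LinearMap.ker_eq_bot']
    intro c hc
    apply hg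
    intro z hz
    have h1 : ∀ e, ∑ j, c j * φ (g j) e = 0 := fun e => congrFun hc e
    calc ∑ j, c j * F (g j) z = ∑ j, ∑ e, (c j * φ (g j) e) * Φ e z := by
          refine Finset.sum_congr rfl (fun j _ => ?_)
          rw [hF (g j) z hz, Finset.mul_sum]
          refine Finset.sum_congr rfl (fun e _ => ?_)
          ring
      _ = ∑ e, (∑ j, c j * φ (g j) e) * Φ e z := by
          rw [Finset.sum_comm]
          refine Finset.sum_congr rfl (fun e _ => ?_)
          rw [Finset.sum_mul]
      _ = 0 := by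
          refine Finset.sum_eq_zero (fun e _ => ?_)
          rw [h1 e, zero_mul]
  have h2 := LinearMap.finrank_le_finrank_of_injective hinj
  simpa [Module.finrank_fintype_fun_eq_card] using h2

theorem exists_basis {Γ E : Type} [Fintype E] (F : Γ → ℂ → ℂ) (φ : Γ → E → ℂ) (Φ : E → ℂ → ℂ)
    (hF : ∀ γ, ∀ z ∈ HH, F γ z = ∑ e, φ γ e * Φ e z) (γ₀ : Γ) (h0 : ∃ z ∈ HH, F γ₀ z ≠ 0) :
    ∃ (m : ℕ) (g : Fin (m + 1) → Γ), g 0 = γ₀ ∧ m + 1 ≤ Fintype.card E ∧ LI (fun j => F (g j)) ∧
      ∀ γ, ∃ c : Fin (m + 1) → ℂ, ∀ z ∈ HH, F γ z = ∑ j, c j * F (g j) z := by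
  classical
  have hP0 : ∃ g : Fin (0 + 1) → Γ, g 0 = γ₀ ∧ LI (fun j => F (g j)) := by
    refine ⟨fun _ => γ₀, rfl, ?_⟩
    intro c hc
    obtain ⟨z, hz, hne⟩ := h0
    have h1 := hc z hz
    funext j
    have hj : j = 0 := Fin.ext (by have := j.isLt; simp only [Fin.val_zero]; omega)
    subst hj
    simp only [Nat.reduceAdd, Fin.sum_univ_succ, Finset.univ_eq_empty, Finset.sum_empty, add_zero] at h1
    rcases mul_eq_zero.1 h1 with h | h
    · exact h
    · exact absurd h hne
  have hex : ∃ m, (∃ g : Fin (m + 1) → Γ, g 0 = γ₀ ∧ LI (fun j => F (g j))) ∧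
      ¬ ∃ g : Fin (m + 1 + 1) → Γ, g 0 = γ₀ ∧ LI (fun j => F (g j)) := by
    by_contra hcon
    push Not at hcon
    have hall : ∀ m, ∃ g : Fin (m + 1) → Γ, g 0 = γ₀ ∧ LI (fun j => F (g j)) := by
      intro m
      induction m with
      | zero => exact hP0
      | succ k ih =>
        exact hcon k ih
    obtain ⟨g, -, hgL⟩ := hall (Fintype.card E)
    have := M8_card F φ Φ hF _ g hgL
    omega
  obtain ⟨m, ⟨g, hg0, hgL⟩, hmax⟩ := hex
  refine ⟨m, g, hg0, M8_card F φ Φ hF m g hgL, hgL, ?_⟩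
  intro γ
  have hn : ¬ LI (fun j => F ((Fin.snoc g γ : Fin (m + 1 + 1) → Γ) j)) := by
    intro hL
    refine hmax ⟨Fin.snoc g γ, ?_, hL⟩
    have : (0 : Fin (m + 1 + 1)) = Fin.castSucc (0 : Fin (m + 1)) := rfl
    rw [this, Fin.snoc_castSucc, hg0]
  unfold LI at hn
  push Not at hn
  obtain ⟨c, hc, hcne⟩ := hn
  have hsum : ∀ z ∈ HH, ∑ j : Fin (m + 1), c (Fin.castSucc j) * F (g j) z + c (Fin.last (m + 1)) * F γ z = 0 := by
    intro z hz
    have h1 := hc z hz
    rw [Fin.sum_univ_castSucc] at h1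
    simpa only [Fin.snoc_castSucc, Fin.snoc_last] using h1
  have hlast : c (Fin.last (m + 1)) ≠ 0 := by
    intro hl
    apply hcne
    have h2 : (fun j : Fin (m + 1) => c (Fin.castSucc j)) = 0 := by
      apply hgL
      intro z hz
      have h3 := hsum z hz
      rw [hl, zero_mul, add_zero] at h3
      exact h3
    funext j
    refine Fin.lastCases ?_ (fun i => ?_) j
    · exact hl
    · exact congrFun h2 i
  refine ⟨fun j => -(c (Fin.castSucc j)) / c (Fin.last (m + 1)), ?_⟩
  intro z hz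
  have h3 := hsum z hz
  have h4 : ∑ j : Fin (m + 1), -(c (Fin.castSucc j)) / c (Fin.last (m + 1)) * F (g j) z =
      -(∑ j : Fin (m + 1), c (Fin.castSucc j) * F (g j) z) / c (Fin.last (m + 1)) := by
    rw [neg_div, Finset.sum_div, ← Finset.sum_neg_distrib]
    refine Finset.sum_congr rfl (fun j _ => ?_)
    ring
  rw [h4, eq_div_iff hlast]
  linear_combination h3

end H65Z
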