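import Pool.Agent.Lib.H65Z.Defs

/-!
# H65Z, chunk M9 (S/M): the character has order dividing twelve

PROOF. Let `W z₀ ≠ 0`. `W z = W(-1/(-1/z)) = α (-1/z)^K α z^K W z = α² (-1)^K W z`, so `α² (-1)^K = 1`. Let `U z = -1/(z+1)` (maps `HH` to `HH`): `W(U z) = α β (z+1)^K W z`. `U (U (U z)) = z`,
`(U z + 1)(z + 1) = z`, `U(U z) + 1 = -1/z`, so `W z = (α β)^3 ((U(U z)+1)(U z+1)(z+1))^K W z = (α β)^3 (-1)^K W z` and `(α β)^3 (-1)^K = 1`. Hence `α^4 = 1`, `α^12 = 1`, `(α β)^12 = 1`, `β^12 = 1`.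
-/

namespace H65Z

private theorem M9_inv {z : ℂ} (hz : z ∈ HH) : -1 / z ∈ HH := by
  have hz' : 0 < z.im := hz
  have h0 : z ≠ 0 := by
    intro h
    rw [h] at hz'
    exact lt_irrefl _ hz'
  show 0 < (-1 / z).im
  have h1 : (-1 / z).im = z.im / Complex.normSq z := by
    rw [neg_div, Complex.neg_im, one_div, Complex.inv_im]
    ring
  rw [h1]
  exact div_pos hz' (Complex.normSq_pos.mpr h0)

private theorem M9_add {z : ℂ} (hz : z ∈ HH) : z + 1 ∈ HH := by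
  have hz' : 0 < z.im := hz
  show 0 < (z + 1).im
  rw [Complex.add_im, Complex.one_im, add_zero]
  exact hz'

private theorem M9_ne {z : ℂ} (hz : z ∈ HH) : z ≠ 0 := by
  intro h
  have hz' : 0 < z.im := hz
  rw [h] at hz'
  exact lt_irrefl _ hz'

theorem char12 (K : ℕ) (W : ℂ → ℂ) (α β : ℂ) (hS : ∀ z ∈ HH, W (-1 / z) = α * z ^ K * W z)
    (hT : ∀ z ∈ HH, W (z + 1) = β * W z) (hne : ∃ z ∈ HH, W z ≠ 0) : α ^ 12 = 1 ∧ β ^ 12 = 1 := by
  obtain ⟨z, hz, hWz⟩ := hne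
  have hz0 : z ≠ 0 := M9_ne hz
  -- first relation
  have h1 : α ^ 2 * (-1) ^ K = 1 := by
    have e1 := hS (-1 / z) (M9_inv hz)
    rw [hS z hz] at e1
    have e2 : -1 / (-1 / z) = z := by
      field_simp
    rw [e2] at e1
    have e3 : (-1 / z) ^ K * z ^ K = (-1) ^ K := by
      rw [← mul_pow]
      congr 1
      field_simp
    have e4 : W z = (α ^ 2 * (-1) ^ K) * W z := by
      calc W z = α * (-1 / z) ^ K * (α * z ^ K * W z) := e1
        _ = α ^ 2 * ((-1 / z) ^ K * z ^ K) * W z := by ring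
        _ = _ := by rw [e3]
    have e5 : (α ^ 2 * (-1) ^ K - 1) * W z = 0 := by
      rw [sub_mul, ← e4, one_mul, sub_self]
    rcases mul_eq_zero.mp e5 with h | h
    · exact sub_eq_zero.mp h
    · exact absurd h hWz
  -- second relation
  have hU : ∀ w ∈ HH, W (-1 / (w + 1)) = (α * β) * (w + 1) ^ K * W w := by
    intro w hw
    rw [hS (w + 1) (M9_add hw), hT w hw]
    ring
  have hUm : ∀ w ∈ HH, -1 / (w + 1) ∈ HH := fun w hw => M9_inv (M9_add hw)
  have h2 : (α * β) ^ 3 * (-1) ^ K = 1 := by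
    have hu := hUm z hz
    have huu := hUm _ hu
    have n1 : z + 1 ≠ 0 := M9_ne (M9_add hz)
    have n2 : -1 / (z + 1) + 1 ≠ 0 := M9_ne (M9_add hu)
    have n3 : -1 / (-1 / (z + 1) + 1) + 1 ≠ 0 := M9_ne (M9_add huu)
    have q1 : -1 / (z + 1) + 1 = z / (z + 1) := by
      field_simp
      ring
    have q2 : -1 / (-1 / (z + 1) + 1) = -(z + 1) / z := by
      rw [q1]
      field_simp
    have q3 : -1 / (-1 / (z + 1) + 1) + 1 = -1 / z := by
      rw [q2]
      field_simp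
      ring
    have q4 : -1 / (-1 / (-1 / (z + 1) + 1) + 1) = z := by
      rw [q3]
      field_simp
    have e1 := hU _ huu
    rw [q4, hU _ hu, hU z hz] at e1
    have e3 : (-1 / (-1 / (z + 1) + 1) + 1) ^ K * (-1 / (z + 1) + 1) ^ K * (z + 1) ^ K =
        (-1) ^ K := by
      rw [q3, q1, ← mul_pow, ← mul_pow]
      congr 1
      field_simp
    have e4 : W z = ((α * β) ^ 3 * (-1) ^ K) * W z := by
      calc W z = α * β * (-1 / (-1 / (z + 1) + 1) + 1) ^ K *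
            (α * β * (-1 / (z + 1) + 1) ^ K * (α * β * (z + 1) ^ K * W z)) := e1
        _ = (α * β) ^ 3 * ((-1 / (-1 / (z + 1) + 1) + 1) ^ K * (-1 / (z + 1) + 1) ^ K *
            (z + 1) ^ K) * W z := by ring
        _ = _ := by rw [e3]
    have e5 : ((α * β) ^ 3 * (-1) ^ K - 1) * W z = 0 := by
      rw [sub_mul, ← e4, one_mul, sub_self]
    rcases mul_eq_zero.mp e5 with h | h
    · exact sub_eq_zero.mp h
    · exact absurd h hWz
  have hs : ((-1 : ℂ) ^ K) ^ 2 = 1 := by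
    rw [← pow_mul, mul_comm, pow_mul]
    norm_num
  have h3 : α ^ 4 = 1 := by
    calc α ^ 4 = (α ^ 2 * (-1) ^ K) ^ 2 := by
          rw [mul_pow, hs, mul_one]
          ring
      _ = 1 := by rw [h1, one_pow]
  have h4 : (α * β) ^ 6 = 1 := by
    calc (α * β) ^ 6 = ((α * β) ^ 3 * (-1) ^ K) ^ 2 := by
          rw [mul_pow _ ((-1 : ℂ) ^ K), hs, mul_one]
          ring
      _ = 1 := by rw [h2, one_pow]
  have h5 : α ^ 12 = 1 := by
    calc α ^ 12 = (α ^ 4) ^ 3 := by ring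
      _ = 1 := by rw [h3, one_pow]
  refine ⟨h5, ?_⟩
  calc β ^ 12 = α ^ 12 * β ^ 12 := by rw [h5, one_mul]
    _ = ((α * β) ^ 6) ^ 2 := by ring
    _ = 1 := by rw [h4, one_pow]

end H65Z
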