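import Pool.Agent.Lib.H65Z.M5
import Pool.Agent.Lib.H65Z.M6
import Pool.Agent.Lib.H65Z.M7
import Pool.Agent.Lib.H65Z.M8
import Pool.Agent.Lib.H65Z.M9
import Pool.Agent.Lib.H65Z.M10

/-!
# H65Z, chunk M11 (M/L): the Wronskian bound

PROOF. `exists_basis` for `F γ = sl w γ F`, `γ₀ = 1` (`sl_one`): `m'+1 ≤ card E =: m`, `u j = sl w (g j) F`, `u 0 = F` on `HH`. `W = Wr u`, not `0` somewhere (`wr_ne`), of class `EG N` (`EG_Wr`, `hEG`).
For `γ` in `{S, T}`: `sl w γ (u j) = sl w (g j * γ) F` on `HH` (`sl_mul`) `= ∑ l, c l * u l`, so by `Wr_sl` and `Wr_lin` `(jo γ z ^ K)⁻¹ W(mo γ z) = det C * W z`, `K = (m'+1) w + (m'+1) m'`. `mo_S, jo_S, mo_T, jo_T`: `W(-1/z) = α z^K W z`,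
`W(z+1) = β W z`; `char12`; `G = W^12` is of class `EG (12 N)`, `G(-1/z) = z^(12 K) G z`, `G(z+1) = G z`. If `12 N > K` then `12 K < 12 (12 N)` and `sturm_zero` gives `G = 0`, a contradiction. So `12 N ≤ K ≤ m (w + m)`.
-/

open scoped MatrixGroups

namespace H65Z

theorem wr_bound (w N : ℕ) {E : Type} [Fintype E] (F : ℂ → ℂ) (hF : EG N F)
    (h0 : ∃ z ∈ HH, F z ≠ 0) (φ : SL(2, ℤ) → E → ℂ) (Φ : E → ℂ → ℂ)
    (hexp : ∀ γ, ∀ z ∈ HH, sl w γ F z = ∑ e, φ γ e * Φ e z) (hEG : ∀ γ, EG 0 (sl w γ F)) :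
    12 * N ≤ Fintype.card E * (w + Fintype.card E) := by
  have h01 : ∃ z ∈ HH, sl w 1 F z ≠ 0 := by
    obtain ⟨z, hz, h⟩ := h0
    exact ⟨z, hz, by rwa [sl_one]⟩
  obtain ⟨m, g, hg0, hm, hLI, hsp⟩ := exists_basis (fun γ => sl w γ F) φ Φ hexp 1 h01
  obtain ⟨u, hu⟩ : ∃ u : Fin (m + 1) → ℂ → ℂ, ∀ j, u j = sl w (g j) F := ⟨_, fun _ => rfl⟩
  have hu' : u = fun j => sl w (g j) F := funext hu
  have hLIu : LI u := by
    rw [hu']
    exact hLI
  have hd : ∀ j, DifferentiableOn ℂ (u j) HH := fun j => by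
    rw [hu]
    exact (hEG _).diff
  have hEGu : ∀ j, EG 0 (u j) := fun j => by
    rw [hu]
    exact hEG _
  have hu0 : EG N (u 0) := by
    rw [hu, hg0]
    exact hF.congr fun z _ => sl_one w F z
  obtain ⟨z₀, hz₀, hW⟩ := wr_ne u hd hLIu
  obtain ⟨K, hK⟩ : ∃ K, K = (m + 1) * w + (m + 1) * m := ⟨_, rfl⟩
  have key : ∀ γ : SL(2, ℤ), ∃ α : ℂ, ∀ z ∈ HH, Wr u (mo γ z) = α * jo γ z ^ K * Wr u z := by
    intro γ
    have h1 : ∀ j, ∃ c : Fin (m + 1) → ℂ, ∀ z ∈ HH, sl w γ (u j) z = ∑ l, c l * u l z := by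
      intro j
      obtain ⟨c, hc⟩ := hsp (g j * γ)
      refine ⟨c, fun z hz => ?_⟩
      have h2 := hc z hz
      rw [hu j, ← sl_mul w (g j) γ F hz]
      simp only [hu]
      exact h2
    choose c hc using h1
    refine ⟨(Matrix.of fun l j => c j l).det, fun z hz => ?_⟩
    have h3 := Wr_sl w (m + 1) γ u hd hz
    have h4 := Wr_lin (m + 1) u (fun j => sl w γ (u j)) hd (Matrix.of fun l j => c j l)
      (fun j z hz => by
        rw [hc j z hz]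
        rfl) hz
    rw [h4, Nat.add_sub_cancel, ← hK] at h3
    have h5 : jo γ z ^ K ≠ 0 := pow_ne_zero _ (jo_ne γ hz)
    rw [mul_right_comm, h3, mul_right_comm, inv_mul_cancel₀ h5, one_mul]
  obtain ⟨α, hα⟩ := key ModularGroup.S
  obtain ⟨β, hβ⟩ := key ModularGroup.T
  have hS : ∀ z ∈ HH, Wr u (-1 / z) = α * z ^ K * Wr u z := by
    intro z hz
    have h1 := hα z hz
    rwa [mo_S, jo_S] at h1
  have hT : ∀ z ∈ HH, Wr u (z + 1) = β * Wr u z := by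
    intro z hz
    have h1 := hβ z hz
    rwa [mo_T, jo_T, one_pow, mul_one] at h1
  obtain ⟨hα12, hβ12⟩ := char12 K (Wr u) α β hS hT ⟨z₀, hz₀, hW⟩
  have hNK : 12 * N ≤ K := by
    by_contra hcon
    rw [not_le] at hcon
    have h1 := sturm_zero (12 * K) (12 * N) (fun z => Wr u z ^ 12) ((EG_Wr hu0 hEGu).pow 12)
      (fun z hz => by
        rw [hS z hz, mul_pow, mul_pow, hα12, one_mul, ← pow_mul, Nat.mul_comm K 12])
      (fun z hz => by
        rw [hT z hz, mul_pow, hβ12, one_mul]) (by omega) z₀ hz₀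
    exact pow_ne_zero 12 hW h1
  calc 12 * N ≤ K := hNK
    _ = (m + 1) * (w + m) := by rw [hK]; ring
    _ ≤ Fintype.card E * (w + Fintype.card E) := Nat.mul_le_mul hm (by omega)

end H65Z
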