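import Pool.Agent.Lib.H65Z.M2

/-!
# H65Z, chunk M4 (M): primitives

PROOF. Existence of a primitive: the Cayley transform `φ(w) = i (1 + w) / (1 - w)` maps the unit ball onto `HH`, the inverse is `z ↦ (z - i)/(z + i)`. `G(φ w) φ'(w)` is holomorphic on the
ball, so it has a primitive `K` there (`DifferentiableOn.isExactOn_ball` in Mathlib/Analysis/Complex/HasPrimitives.lean, or search there for a version for convex / simply connected open sets, e.g. write
`HH` as an increasing union or use `I z = ∫ t in 0..1, G (i + t (z - i)) (z - i)`), and `I z = K((z - i)/(z + i))`.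
Growth: for `δ > 0` let `ε = min δ 1`; the set `{ε ≤ Im}` is convex and contains `i` and `z`; on the segment `‖G‖ ≤ C (1 + ‖z‖ + 1)^M ≤ C 2^M (1 + ‖z‖)^M` (`C ≥ 0`), so by the mean value inequality
(`Convex.norm_image_sub_le_of_norm_hasDerivWithin_le` on the segment) `‖I z‖ ≤ ‖I i‖ + C 2^M (1 + ‖z‖)^(M+1)`.
-/

namespace H65Z

lemma m4_cayley_mem {w : ℂ} (hw : w ∈ Metric.ball (0 : ℂ) 1) :
    Complex.I * (1 + w) / (1 - w) ∈ HH := by
  rw [Metric.mem_ball, dist_zero_right] at hw
  have h1 : (1 : ℂ) - w ≠ 0 := by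
    intro h
    have h2 : w = 1 := (sub_eq_zero.1 h).symm
    rw [h2, norm_one] at hw
    exact lt_irrefl _ hw
  have h2 : 0 < Complex.normSq (1 - w) := Complex.normSq_pos.2 h1
  have h3 : Complex.normSq w < 1 := by
    rw [Complex.normSq_eq_norm_sq]
    have h4 := norm_nonneg w
    nlinarith
  have h5 : w.re * w.re + w.im * w.im < 1 := by
    rw [Complex.normSq_apply] at h3
    exact h3
  show 0 < (Complex.I * (1 + w) / (1 - w)).im
  rw [Complex.div_im, ← sub_div]
  apply div_pos _ h2
  simp only [Complex.mul_im, Complex.mul_re, Complex.I_re, Complex.I_im, Complex.add_re, Complex.add_im,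
    Complex.sub_re, Complex.sub_im, Complex.one_re, Complex.one_im]
  nlinarith

lemma m4_inv_mem {z : ℂ} (hz : z ∈ HH) : (z - Complex.I) / (z + Complex.I) ∈ Metric.ball (0 : ℂ) 1 := by
  have hz' : 0 < z.im := hz
  have h1 : z + Complex.I ≠ 0 := by
    intro h
    have h2 := congrArg Complex.im h
    rw [Complex.add_im, Complex.I_im, Complex.zero_im] at h2
    linarith
  rw [Metric.mem_ball, dist_zero_right, norm_div, div_lt_one (norm_pos_iff.2 h1)]
  have h3 : ‖z - Complex.I‖ ^ 2 < ‖z + Complex.I‖ ^ 2 := by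
    rw [← Complex.normSq_eq_norm_sq, ← Complex.normSq_eq_norm_sq, Complex.normSq_apply, Complex.normSq_apply,
      Complex.sub_re, Complex.sub_im, Complex.add_re, Complex.add_im, Complex.I_re, Complex.I_im]
    nlinarith
  exact lt_of_pow_lt_pow_left₀ 2 (norm_nonneg _) h3

theorem exists_prim {G : ℂ → ℂ} (hG : DifferentiableOn ℂ G HH) :
    ∃ I : ℂ → ℂ, ∀ z ∈ HH, HasDerivAt I (G z) z := by
  have hopen : IsOpen HH := isOpen_lt continuous_const Complex.continuous_im
  have hone : ∀ w ∈ Metric.ball (0 : ℂ) 1, (1 : ℂ) - w ≠ 0 := by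
    intro w hw h
    rw [Metric.mem_ball, dist_zero_right, (sub_eq_zero.1 h).symm, norm_one] at hw
    exact lt_irrefl _ hw
  have hd : DifferentiableOn ℂ (fun w => G (Complex.I * (1 + w) / (1 - w)) * (2 * Complex.I / (1 - w) ^ 2))
      (Metric.ball (0 : ℂ) 1) := by
    intro w hw
    have hn := hone w hw
    have h1 : DifferentiableAt ℂ G (Complex.I * (1 + w) / (1 - w)) :=
      (hG _ (m4_cayley_mem hw)).differentiableAt (hopen.mem_nhds (m4_cayley_mem hw))
    have h2 : DifferentiableAt ℂ (fun w : ℂ => Complex.I * (1 + w) / (1 - w)) w := by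
      apply DifferentiableAt.div
      · exact (differentiableAt_const _).mul ((differentiableAt_const _).add differentiableAt_id)
      · exact (differentiableAt_const _).sub differentiableAt_id
      · exact hn
    have h3 : DifferentiableAt ℂ (fun w : ℂ => 2 * Complex.I / (1 - w) ^ 2) w := by
      apply DifferentiableAt.div (differentiableAt_const _)
      · exact ((differentiableAt_const _).sub differentiableAt_id).pow 2
      · exact pow_ne_zero 2 hn
    exact ((DifferentiableAt.comp w h1 h2).mul h3).differentiableWithinAt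
  obtain ⟨K, hK⟩ := hd.isExactOn_ball
  refine ⟨fun z => K ((z - Complex.I) / (z + Complex.I)), fun z hz => ?_⟩
  have hz' : 0 < z.im := hz
  have h1 : z + Complex.I ≠ 0 := by
    intro h
    have h2 := congrArg Complex.im h
    rw [Complex.add_im, Complex.I_im, Complex.zero_im] at h2
    linarith
  have hI : Complex.I ≠ 0 := Complex.I_ne_zero
  have h3 := hK _ (m4_inv_mem hz)
  have h4 : HasDerivAt (fun z : ℂ => (z - Complex.I) / (z + Complex.I)) (2 * Complex.I / (z + Complex.I) ^ 2) z := by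
    have h5 := ((hasDerivAt_id z).sub_const Complex.I).div ((hasDerivAt_id z).add_const Complex.I) h1
    have h6 : (1 * (id z + Complex.I) - (id z - Complex.I) * 1) / (id z + Complex.I) ^ 2 =
        2 * Complex.I / (z + Complex.I) ^ 2 := by
      rw [id]
      ring
    rw [h6] at h5
    exact h5
  have h7 : (1 : ℂ) - (z - Complex.I) / (z + Complex.I) = 2 * Complex.I / (z + Complex.I) := by
    field_simp
    ring
  have h8 : Complex.I * (1 + (z - Complex.I) / (z + Complex.I)) / (1 - (z - Complex.I) / (z + Complex.I)) = z := by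
    rw [h7]
    field_simp
    ring
  have h9 := HasDerivAt.comp z h3 h4
  have h10 : G (Complex.I * (1 + (z - Complex.I) / (z + Complex.I)) / (1 - (z - Complex.I) / (z + Complex.I))) *
      (2 * Complex.I / (1 - (z - Complex.I) / (z + Complex.I)) ^ 2) * (2 * Complex.I / (z + Complex.I) ^ 2) = G z := by
    rw [h8, h7, mul_assoc]
    have h11 : (2 * Complex.I / (2 * Complex.I / (z + Complex.I)) ^ 2) * (2 * Complex.I / (z + Complex.I) ^ 2) = 1 := by
      field_simp
    rw [h11, mul_one]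
  rw [h10] at h9
  exact h9

theorem EG_prim {G I : ℂ → ℂ} (hG : EG 0 G) (hI : ∀ z ∈ HH, HasDerivAt I (G z) z) : EG 0 I := by
  refine ⟨fun z hz => (hI z hz).differentiableAt.differentiableWithinAt, fun δ hδ => ?_⟩
  obtain ⟨C, M, hCM⟩ := hG.bd (min δ 1) (lt_min hδ one_pos)
  refine ⟨‖I Complex.I‖ + |C| * 2 ^ M, M + 1, fun z hz => ?_⟩
  have hzn := norm_nonneg z
  have hconv : Convex ℝ ({w : ℂ | min δ 1 ≤ w.im} ∩ Metric.closedBall (0 : ℂ) (1 + ‖z‖)) :=
    (convex_halfSpace_im_ge _).inter (convex_closedBall _ _)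
  have hIm : Complex.I ∈ {w : ℂ | min δ 1 ≤ w.im} ∩ Metric.closedBall (0 : ℂ) (1 + ‖z‖) := by
    refine ⟨?_, ?_⟩
    · show min δ 1 ≤ Complex.I.im
      rw [Complex.I_im]
      exact min_le_right _ _
    · rw [Metric.mem_closedBall, dist_zero_right, Complex.norm_I]
      linarith
  have hzm : z ∈ {w : ℂ | min δ 1 ≤ w.im} ∩ Metric.closedBall (0 : ℂ) (1 + ‖z‖) := by
    refine ⟨?_, ?_⟩
    · show min δ 1 ≤ z.im
      exact (min_le_left _ _).trans hz
    · rw [Metric.mem_closedBall, dist_zero_right]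
      linarith
  have hmv := hconv.norm_image_sub_le_of_norm_hasDerivWithin_le (f := I) (f' := G)
    (C := |C| * (2 ^ M * (1 + ‖z‖) ^ M)) (x := Complex.I) (y := z)
    (fun w hw => by
      have h1 : w ∈ HH := lt_of_lt_of_le (lt_min hδ one_pos) hw.1
      exact (hI w h1).hasDerivWithinAt)
    (fun w hw => by
      have h1 := hCM w hw.1
      have h2 : ‖w‖ ≤ 1 + ‖z‖ := by
        have h3 := hw.2
        rw [Metric.mem_closedBall, dist_zero_right] at h3
        exact h3
      rw [Nat.cast_zero, mul_zero, zero_mul, neg_zero, Real.exp_zero, mul_one] at h1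
      refine h1.trans ?_
      have h4 : (1 + ‖w‖) ^ M ≤ 2 ^ M * (1 + ‖z‖) ^ M := by
        rw [← mul_pow]
        apply pow_le_pow_left₀ (by positivity)
        linarith
      exact mul_le_mul (le_abs_self C) h4 (by positivity) (abs_nonneg C))
    hIm hzm
  have h5 : ‖z - Complex.I‖ ≤ 1 + ‖z‖ := by
    refine (norm_sub_le _ _).trans ?_
    rw [Complex.norm_I]
    linarith
  have h6 : ‖I z‖ ≤ ‖I Complex.I‖ + ‖I z - I Complex.I‖ := by
    have h7 := norm_add_le (I Complex.I) (I z - I Complex.I)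
    rw [add_sub_cancel] at h7
    exact h7
  rw [Nat.cast_zero, mul_zero, zero_mul, neg_zero, Real.exp_zero, mul_one]
  have h8 : |C| * (2 ^ M * (1 + ‖z‖) ^ M) * ‖z - Complex.I‖ ≤ |C| * (2 ^ M * (1 + ‖z‖) ^ M) * (1 + ‖z‖) :=
    mul_le_mul_of_nonneg_left h5 (by positivity)
  have h9 : (1 : ℝ) ≤ (1 + ‖z‖) ^ (M + 1) := one_le_pow₀ (by linarith)
  have h10 : ‖I Complex.I‖ ≤ ‖I Complex.I‖ * (1 + ‖z‖) ^ (M + 1) :=
    le_mul_of_one_le_right (norm_nonneg _) h9
  calc ‖I z‖ ≤ ‖I Complex.I‖ + ‖I z - I Complex.I‖ := h6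
    _ ≤ ‖I Complex.I‖ * (1 + ‖z‖) ^ (M + 1) + |C| * (2 ^ M * (1 + ‖z‖) ^ M) * (1 + ‖z‖) :=
        add_le_add h10 (hmv.trans h8)
    _ = (‖I Complex.I‖ + |C| * 2 ^ M) * (1 + ‖z‖) ^ (M + 1) := by ring

end H65Z
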