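import Pool.Agent.Lib.H65Z.M1
import Pool.Agent.Lib.H65Z.M4

/-!
# H65Z, chunk M12 (M): a primitive under `SL₂(ℤ)`

PROOF. `I i t` a primitive of `g i z * z^t` (`exists_prim`, `EG_prim`, `EG.mul`, `EG.pow EG_id`). For `γ = (a, b; c, d)` the derivative of `z ↦ H (mo γ z)` is `g i (mo γ z) (jo γ z ^ 2)⁻¹ = jo γ z ^ k * g j z`
(`stab`, `jo_ne`), and `jo γ z ^ k = ∑ t, (k.choose t) c^t d^(k-t) z^t` (`add_pow`). So the difference of the two sides without `κ` has derivative `0` on `HH`, open and convex, so it is constant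
(`IsOpen.is_const_of_deriv_eq_zero`, or `Convex.is_const_of_fderivWithin_eq_zero`).
-/

open scoped MatrixGroups

namespace H65Z

theorem exp_one {k : ℕ} {ι : Type} {g : ι → ℂ → ℂ} (hg : Fam k g) :
    ∃ I : ι → ℕ → ℂ → ℂ, (∀ i t, EG 0 (I i t)) ∧
      ∀ (H : ℂ → ℂ) (i : ι), (∀ z ∈ HH, HasDerivAt H (g i z) z) → ∀ γ : SL(2, ℤ),
        ∃ (j : ι) (κ : ℂ), ∀ z ∈ HH, H (mo γ z) = κ + ∑ t ∈ Finset.range (k + 1),
          (k.choose t : ℂ) * ((γ 1 0 : ℤ) : ℂ) ^ t * ((γ 1 1 : ℤ) : ℂ) ^ (k - t) * I j t z := by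
  have hG : ∀ (i : ι) (t : ℕ), EG 0 fun z => g i z * z ^ t := by
    intro i t
    have h1 := (hg.eg i).mul (EG.pow EG_id t)
    simpa using h1
  choose I hI using fun (i : ι) (t : ℕ) => exists_prim (hG i t).diff
  refine ⟨I, fun i t => EG_prim (hG i t) (hI i t), ?_⟩
  intro H i hH γ
  obtain ⟨j, hj⟩ := hg.stab i γ
  have hopen : IsOpen HH := isOpen_lt continuous_const Complex.continuous_im
  have hconv : Convex ℝ HH := convex_halfSpace_im_gt 0
  have hpre : IsPreconnected HH := hconv.isPreconnected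
  let S : ℂ → ℂ := fun z => ∑ t ∈ Finset.range (k + 1),
    (k.choose t : ℂ) * ((γ 1 0 : ℤ) : ℂ) ^ t * ((γ 1 1 : ℤ) : ℂ) ^ (k - t) * I j t z
  have hder : ∀ z ∈ HH, HasDerivAt (fun z => H (mo γ z) - S z) 0 z := by
    intro z hz
    have h1 : HasDerivAt (fun z => H (mo γ z)) (g i (mo γ z) * (jo γ z ^ 2)⁻¹) z :=
      (hH (mo γ z) (mo_mem γ hz)).comp z (hasDerivAt_mo γ hz)
    have h2 : HasDerivAt S (∑ t ∈ Finset.range (k + 1),
        (k.choose t : ℂ) * ((γ 1 0 : ℤ) : ℂ) ^ t * ((γ 1 1 : ℤ) : ℂ) ^ (k - t) *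
          (g j z * z ^ t)) z :=
      HasDerivAt.fun_sum fun t _ => (hI j t z hz).const_mul _
    have h3 := h1.sub h2
    have h4 : g i (mo γ z) * (jo γ z ^ 2)⁻¹ - ∑ t ∈ Finset.range (k + 1),
        (k.choose t : ℂ) * ((γ 1 0 : ℤ) : ℂ) ^ t * ((γ 1 1 : ℤ) : ℂ) ^ (k - t) *
          (g j z * z ^ t) = 0 := by
      rw [hj z hz]
      have hne : jo γ z ≠ 0 := jo_ne γ hz
      have h5 : jo γ z ^ (k + 2) * g j z * (jo γ z ^ 2)⁻¹ = jo γ z ^ k * g j z := by
        rw [pow_add]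
        field_simp
      rw [h5, jo, add_pow, Finset.sum_mul, ← Finset.sum_sub_distrib]
      refine Finset.sum_eq_zero fun t _ => ?_
      rw [mul_pow]
      ring
    rw [h4] at h3
    exact h3
  have hdiff : DifferentiableOn ℂ (fun z => H (mo γ z) - S z) HH := fun z hz =>
    (hder z hz).differentiableAt.differentiableWithinAt
  have hII : Complex.I ∈ HH := by
    change 0 < Complex.I.im
    rw [Complex.I_im]
    exact one_pos
  refine ⟨j, H (mo γ Complex.I) - S Complex.I, fun z hz => ?_⟩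
  have h6 : H (mo γ z) - S z = H (mo γ Complex.I) - S Complex.I :=
    hopen.is_const_of_deriv_eq_zero hpre hdiff (fun w hw => (hder w hw).deriv) hz hII
  have h7 : H (mo γ z) = (H (mo γ Complex.I) - S Complex.I) + S z := by
    rw [← h6]
    ring
  exact h7

end H65Z
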