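import Pool.Agent.Lib.H65Z.M2

/-!
# H65Z, chunk M3 (M): derivatives

PROOF. `HH` is open, so `deriv u` is holomorphic on `HH` (`DifferentiableOn.deriv`). For `Im z ≥ δ` apply Cauchy's estimate on the circle of radius `δ/2` about `z`
(`Complex.norm_deriv_le_of_forall_mem_sphere_norm_le`): there `Im ≥ δ/2`, `‖w‖ ≤ ‖z‖ + δ/2 ≤ ..`, `1 + ‖w‖ ≤ (1 + δ)(1 + ‖z‖)`, `Im w ≥ Im z - δ/2`, so
`exp (-(2 π N Im w)) ≤ exp (π N δ) exp (-(2 π N Im z))`. Iterate: `iteratedDeriv_succ`.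
-/

namespace H65Z

private theorem M3_open : IsOpen HH := isOpen_lt continuous_const Complex.continuous_im

theorem EG.deriv {N : ℕ} {u : ℂ → ℂ} (h : EG N u) : EG N (deriv u) := by
  refine ⟨h.diff.deriv M3_open, fun δ hδ => ?_⟩
  obtain ⟨C, M, hC⟩ := h.bd (δ / 2) (by positivity)
  refine ⟨|C| * (1 + δ) ^ M * Real.exp (Real.pi * N * δ) / (δ / 2), M, fun z hz => ?_⟩
  have him : ∀ w : ℂ, ‖w - z‖ ≤ δ / 2 → z.im - δ / 2 ≤ w.im := by
    intro w hw
    have h1 : |(w - z).im| ≤ ‖w - z‖ := Complex.abs_im_le_norm _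
    rw [Complex.sub_im] at h1
    have h2 := (abs_le.1 h1).1
    linarith
  have hball : Metric.closedBall z (δ / 2) ⊆ HH := by
    intro w hw
    rw [Metric.mem_closedBall, dist_eq_norm] at hw
    have := him w hw
    show 0 < w.im
    linarith
  have key : ∀ w ∈ Metric.sphere z (δ / 2), ‖u w‖ ≤
      |C| * (1 + δ) ^ M * Real.exp (Real.pi * N * δ) *
        ((1 + ‖z‖) ^ M * Real.exp (-(2 * Real.pi * N * z.im))) := by
    intro w hw
    rw [mem_sphere_iff_norm] at hw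
    have hi := him w hw.le
    have h0 := hC w (by linarith)
    have hw' : ‖w‖ ≤ ‖z‖ + δ / 2 := by
      calc ‖w‖ = ‖z + (w - z)‖ := by rw [add_sub_cancel]
        _ ≤ ‖z‖ + ‖w - z‖ := norm_add_le _ _
        _ = ‖z‖ + δ / 2 := by rw [hw]
    have hn : 0 ≤ ‖z‖ := norm_nonneg z
    have hnw : 0 ≤ ‖w‖ := norm_nonneg w
    have h1 : 1 + ‖w‖ ≤ (1 + δ) * (1 + ‖z‖) := by nlinarith
    have h2 : (1 + ‖w‖) ^ M ≤ (1 + δ) ^ M * (1 + ‖z‖) ^ M := by
      rw [← mul_pow]
      exact pow_le_pow_left₀ (by positivity) h1 M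
    have h3 : Real.exp (-(2 * Real.pi * N * w.im)) ≤
        Real.exp (Real.pi * N * δ) * Real.exp (-(2 * Real.pi * N * z.im)) := by
      rw [← Real.exp_add]
      apply Real.exp_le_exp.2
      have h4 : 0 ≤ Real.pi * N := by positivity
      nlinarith
    calc ‖u w‖ ≤ C * (1 + ‖w‖) ^ M * Real.exp (-(2 * Real.pi * N * w.im)) := h0
      _ ≤ |C| * (1 + ‖w‖) ^ M * Real.exp (-(2 * Real.pi * N * w.im)) := by
          gcongr
          exact le_abs_self C
      _ ≤ |C| * ((1 + δ) ^ M * (1 + ‖z‖) ^ M) *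
            (Real.exp (Real.pi * N * δ) * Real.exp (-(2 * Real.pi * N * z.im))) := by
          gcongr
      _ = _ := by ring
  have hd := Complex.norm_deriv_le_of_forall_mem_sphere_norm_le (by positivity : 0 < δ / 2)
    (h.diff.diffContOnCl_ball hball) key
  refine hd.trans (le_of_eq ?_)
  ring

theorem EG.iteratedDeriv {N : ℕ} {u : ℂ → ℂ} (h : EG N u) (n : ℕ) : EG N (iteratedDeriv n u) := by
  induction n with
  | zero => rw [iteratedDeriv_zero]; exact h
  | succ n ih => rw [iteratedDeriv_succ]; exact ih.deriv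

end H65Z
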