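import Pool.Agent.Lib.H65Z.M1

/-!
# H65Z, chunk M5 (M/L): the Wronskian under `SL₂(ℤ)`

PROOF. Define `A : ℕ → ℕ → ℂ → ℂ` by `A 0 0 = (jo γ · ^ w)⁻¹`, `A 0 l = 0` (`l > 0`), `A (i+1) l = deriv (A i l) + (if l = 0 then 0 else A i (l-1) * (jo γ · ^ 2)⁻¹)`. All `A i l` are holomorphic on `HH`
(`jo_ne`, `DifferentiableOn.deriv` on the open set `HH`), `A i l = 0` on `HH` for `l > i` (its derivative too, since it is `0` on an open set), `A i i = (jo γ · ^ (w + 2 i))⁻¹` on `HH`, and by induction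
on `i`, for every `u` holomorphic on `HH` and `z ∈ HH`: `iteratedDeriv i (sl w γ u) z = ∑ l ∈ range (i+1), A i l z * iteratedDeriv l u (mo γ z)`
(`iteratedDeriv_succ`; the two sides agree near `z`, so their derivatives agree: `Filter.EventuallyEq.deriv_eq`; chain rule with `hasDerivAt_mo`). So the matrix of the Wronskian of the `sl w γ (u j)` at `z` is
the product of the lower triangular matrix `(A i l z)` and the matrix of `Wr u` at `mo γ z`; `Matrix.det_mul`, `Matrix.det_of_lowerTriangular`; `∏_{i<m} (jo^(w+2i))⁻¹ = (jo^(m w + m (m-1)))⁻¹`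
(`Finset.prod_inv_distrib`, `Finset.prod_pow_eq_pow_sum`, `Fin.sum_univ_eq_sum_range`, `Finset.sum_range_id_mul_two`).
-/

open scoped MatrixGroups

namespace H65Z

open Finset Filter Topology

private theorem M5_open : IsOpen HH := isOpen_lt continuous_const Complex.continuous_im

private theorem M5_iter {u : ℂ → ℂ} (hu : DifferentiableOn ℂ u HH) (i : ℕ) :
    DifferentiableOn ℂ (iteratedDeriv i u) HH := by
  induction i with
  | zero => rwa [iteratedDeriv_zero]
  | succ i ih =>
    rw [iteratedDeriv_succ]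
    exact ih.deriv M5_open

private theorem M5_iter_at {u : ℂ → ℂ} (hu : DifferentiableOn ℂ u HH) (i : ℕ) {z : ℂ}
    (hz : z ∈ HH) : HasDerivAt (iteratedDeriv i u) (iteratedDeriv (i + 1) u z) z := by
  have h1 : DifferentiableAt ℂ (iteratedDeriv i u) z :=
    (M5_iter hu i).differentiableAt (M5_open.mem_nhds hz)
  rw [iteratedDeriv_succ]
  exact h1.hasDerivAt

private theorem M5_deriv_zero {f : ℂ → ℂ} (hf : ∀ z ∈ HH, f z = 0) {z : ℂ} (hz : z ∈ HH) :
    deriv f z = 0 := by
  have h1 : f =ᶠ[𝓝 z] fun _ => 0 := by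
    filter_upwards [M5_open.mem_nhds hz] with y hy using hf y hy
  rw [h1.deriv_eq]
  simp

private noncomputable def M5A (w : ℕ) (γ : SL(2, ℤ)) : ℕ → ℕ → ℂ → ℂ
  | 0, 0 => fun z => (jo γ z ^ w)⁻¹
  | 0, _ + 1 => fun _ => 0
  | i + 1, 0 => fun z => deriv (M5A w γ i 0) z
  | i + 1, l + 1 => fun z => deriv (M5A w γ i (l + 1)) z + M5A w γ i l z * (jo γ z ^ 2)⁻¹

private theorem M5_jo (γ : SL(2, ℤ)) : Differentiable ℂ (jo γ) := by
  unfold jo
  fun_prop

private theorem M5_joinv (γ : SL(2, ℤ)) (n : ℕ) :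
    DifferentiableOn ℂ (fun z => (jo γ z ^ n)⁻¹) HH := by
  refine DifferentiableOn.fun_inv ((M5_jo γ).differentiableOn.fun_pow n) fun z hz => ?_
  exact pow_ne_zero _ (jo_ne γ hz)

private theorem M5A_diff (w : ℕ) (γ : SL(2, ℤ)) (i : ℕ) :
    ∀ l, DifferentiableOn ℂ (M5A w γ i l) HH := by
  induction i with
  | zero =>
    intro l
    rcases l with _ | l
    · exact M5_joinv γ w
    · exact differentiableOn_const _
  | succ i ih =>
    intro l
    rcases l with _ | l
    · exact (ih 0).deriv M5_open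
    · exact ((ih (l + 1)).deriv M5_open).fun_add ((ih l).fun_mul (M5_joinv γ 2))

private theorem M5A_zero (w : ℕ) (γ : SL(2, ℤ)) (i : ℕ) :
    ∀ l, i < l → ∀ z ∈ HH, M5A w γ i l z = 0 := by
  induction i with
  | zero =>
    intro l hl z _
    rcases l with _ | l
    · exact absurd hl (lt_irrefl _)
    · rfl
  | succ i ih =>
    intro l hl z hz
    rcases l with _ | l
    · omega
    · show deriv (M5A w γ i (l + 1)) z + M5A w γ i l z * (jo γ z ^ 2)⁻¹ = 0
      rw [M5_deriv_zero (ih (l + 1) (by omega)) hz, ih l (by omega) z hz, zero_mul, add_zero]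

private theorem M5A_diag (w : ℕ) (γ : SL(2, ℤ)) (i : ℕ) :
    ∀ z ∈ HH, M5A w γ i i z = (jo γ z ^ (w + 2 * i))⁻¹ := by
  induction i with
  | zero =>
    intro z _
    rw [Nat.mul_zero, Nat.add_zero]
    rfl
  | succ i ih =>
    intro z hz
    show deriv (M5A w γ i (i + 1)) z + M5A w γ i i z * (jo γ z ^ 2)⁻¹ = _
    rw [M5_deriv_zero (M5A_zero w γ i (i + 1) (by omega)) hz, ih z hz, zero_add, ← mul_inv, ← pow_add]
    ring_nf

private theorem M5_formula (w : ℕ) (γ : SL(2, ℤ)) {u : ℂ → ℂ} (hu : DifferentiableOn ℂ u HH)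
    (i : ℕ) : ∀ z ∈ HH, iteratedDeriv i (sl w γ u) z =
      ∑ l ∈ range (i + 1), M5A w γ i l z * iteratedDeriv l u (mo γ z) := by
  induction i with
  | zero =>
    intro z _
    rw [sum_range_one, iteratedDeriv_zero, iteratedDeriv_zero]
    rfl
  | succ i ih =>
    intro z hz
    have h1 : iteratedDeriv i (sl w γ u) =ᶠ[𝓝 z]
        fun y => ∑ l ∈ range (i + 1), M5A w γ i l y * iteratedDeriv l u (mo γ y) := by
      filter_upwards [M5_open.mem_nhds hz] with y hy using ih y hy
    rw [iteratedDeriv_succ, h1.deriv_eq]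
    have h2 : HasDerivAt (fun y => ∑ l ∈ range (i + 1), M5A w γ i l y * iteratedDeriv l u (mo γ y))
        (∑ l ∈ range (i + 1), (deriv (M5A w γ i l) z * iteratedDeriv l u (mo γ z) +
          M5A w γ i l z * (iteratedDeriv (l + 1) u (mo γ z) * (jo γ z ^ 2)⁻¹))) z := by
      refine HasDerivAt.fun_sum fun l _ => ?_
      have h3 : HasDerivAt (M5A w γ i l) (deriv (M5A w γ i l) z) z :=
        ((M5A_diff w γ i l).differentiableAt (M5_open.mem_nhds hz)).hasDerivAt
      have h4 : HasDerivAt (fun y => iteratedDeriv l u (mo γ y))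
          (iteratedDeriv (l + 1) u (mo γ z) * (jo γ z ^ 2)⁻¹) z :=
        (M5_iter_at hu l (mo_mem γ hz)).comp z (hasDerivAt_mo γ hz)
      exact h3.fun_mul h4
    rw [h2.deriv, sum_add_distrib, sum_range_succ' (fun l => deriv (M5A w γ i l) z * iteratedDeriv l u (mo γ z)),
      sum_range_succ' (fun l => M5A w γ (i + 1) l z * iteratedDeriv l u (mo γ z))]
    have h5 : ∑ l ∈ range (i + 1), M5A w γ (i + 1) (l + 1) z * iteratedDeriv (l + 1) u (mo γ z) =
        ∑ l ∈ range (i + 1), deriv (M5A w γ i (l + 1)) z * iteratedDeriv (l + 1) u (mo γ z) +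
        ∑ l ∈ range (i + 1), M5A w γ i l z * (iteratedDeriv (l + 1) u (mo γ z) * (jo γ z ^ 2)⁻¹) := by
      rw [← sum_add_distrib]
      refine sum_congr rfl fun l _ => ?_
      show (deriv (M5A w γ i (l + 1)) z + M5A w γ i l z * (jo γ z ^ 2)⁻¹) * _ = _
      ring
    have h6 : M5A w γ (i + 1) 0 z = deriv (M5A w γ i 0) z := rfl
    rw [h5, sum_range_succ (fun l => deriv (M5A w γ i (l + 1)) z * iteratedDeriv (l + 1) u (mo γ z)),
      M5_deriv_zero (M5A_zero w γ i (i + 1) (by omega)) hz, h6]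
    ring

theorem Wr_sl (w m : ℕ) (γ : SL(2, ℤ)) (u : Fin m → ℂ → ℂ) (hu : ∀ j, DifferentiableOn ℂ (u j) HH)
    {z : ℂ} (hz : z ∈ HH) :
    Wr (fun j => sl w γ (u j)) z = (jo γ z ^ (m * w + m * (m - 1)))⁻¹ * Wr u (mo γ z) := by
  have h1 : (Matrix.of fun i j : Fin m => iteratedDeriv (i : ℕ) (sl w γ (u j)) z) =
      (Matrix.of fun i l : Fin m => M5A w γ i l z) *
        (Matrix.of fun l j : Fin m => iteratedDeriv (l : ℕ) (u j) (mo γ z)) := by
    ext i j
    rw [Matrix.mul_apply]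
    simp only [Matrix.of_apply]
    rw [M5_formula w γ (hu j) i z hz,
      Fin.sum_univ_eq_sum_range (fun l => M5A w γ i l z * iteratedDeriv l (u j) (mo γ z)) m]
    refine sum_subset (range_subset_range.2 (by have := i.2; omega)) fun l _ hl => ?_
    rw [mem_range, not_lt] at hl
    rw [M5A_zero w γ i l (by omega) z hz, zero_mul]
  have h2 : (Matrix.of fun i l : Fin m => M5A w γ i l z).det =
      (jo γ z ^ (m * w + m * (m - 1)))⁻¹ := by
    rw [Matrix.det_of_lowerTriangular]
    · simp only [Matrix.of_apply]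
      rw [Fin.prod_univ_eq_prod_range (fun i => M5A w γ i i z) m]
      have h3 : ∏ i ∈ range m, M5A w γ i i z = ∏ i ∈ range m, (jo γ z ^ (w + 2 * i))⁻¹ :=
        prod_congr rfl fun i _ => M5A_diag w γ i z hz
      rw [h3, prod_inv_distrib, prod_pow_eq_pow_sum, sum_add_distrib, ← mul_sum, sum_const,
        card_range, smul_eq_mul, mul_comm 2, sum_range_id_mul_two]
    · intro i l hil
      have h3 : (i : ℕ) < (l : ℕ) := by
        have h4 : i < l := OrderDual.toDual_lt_toDual.1 hil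
        exact h4
      exact M5A_zero w γ i l h3 z hz
  unfold Wr
  rw [h1, Matrix.det_mul, h2]

private theorem M5_lin {m : ℕ} (u : Fin m → ℂ → ℂ) (hu : ∀ j, DifferentiableOn ℂ (u j) HH)
    (v : ℂ → ℂ) (c : Fin m → ℂ) (h : ∀ z ∈ HH, v z = ∑ l, c l * u l z) (i : ℕ) :
    ∀ z ∈ HH, iteratedDeriv i v z = ∑ l, c l * iteratedDeriv i (u l) z := by
  induction i with
  | zero =>
    intro z hz
    simp only [iteratedDeriv_zero]
    exact h z hz
  | succ i ih =>
    intro z hz
    have h1 : iteratedDeriv i v =ᶠ[𝓝 z] fun y => ∑ l, c l * iteratedDeriv i (u l) y := by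
      filter_upwards [M5_open.mem_nhds hz] with y hy using ih y hy
    rw [iteratedDeriv_succ, h1.deriv_eq]
    have h2 : HasDerivAt (fun y => ∑ l, c l * iteratedDeriv i (u l) y)
        (∑ l, c l * iteratedDeriv (i + 1) (u l) z) z :=
      HasDerivAt.fun_sum fun l _ => (M5_iter_at (hu l) i hz).const_mul (c l)
    exact h2.deriv

/-- The Wronskian of linear combinations. PROOF: `iteratedDeriv` is linear on holomorphic functions (or congruence near `z` and `iteratedDeriv_fun_sum`), the matrix is the product with `C`; `Matrix.det_mul`. -/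
theorem Wr_lin (m : ℕ) (u v : Fin m → ℂ → ℂ) (hu : ∀ j, DifferentiableOn ℂ (u j) HH)
    (C : Matrix (Fin m) (Fin m) ℂ) (h : ∀ j, ∀ z ∈ HH, v j z = ∑ l, C l j * u l z) {z : ℂ}
    (hz : z ∈ HH) : Wr v z = C.det * Wr u z := by
  have h1 : (Matrix.of fun i j : Fin m => iteratedDeriv (i : ℕ) (v j) z) =
      (Matrix.of fun i l : Fin m => iteratedDeriv (i : ℕ) (u l) z) * C := by
    ext i j
    rw [Matrix.mul_apply]
    simp only [Matrix.of_apply]
    rw [M5_lin u hu (v j) (fun l => C l j) (h j) i z hz]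
    exact sum_congr rfl fun l _ => mul_comm _ _
  unfold Wr
  rw [h1, Matrix.det_mul, mul_comm]

end H65Z
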